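import Pool.Agent.Lib.MP_688fd0_co.SQ6.Eul
import Pool.Agent.Lib.MP_688fd0_co.SQ6.Cen

/-!
Row BAL of SQ7: balanced walks. `Bal N q M B`: the list `B` of labels is a closed walk in the Cayley digraph of `Γ / N` which
uses every edge exactly `M` times. Its value is the `M`-th power of one central element (the Euler product); every list of
labels of length less than `M` is the beginning of a balanced walk.
-/

set_option autoImplicit false

namespace Pool.Agent.Lib.MP_688fd0_co.SQ7.H90

open Equiv Equiv.Perm Function Pool.Agent.Lib.MP_688fd0_co Pool.Agent.Lib.MP_688fd0_co.SQ6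

/-- `B` is a closed walk in the Cayley digraph of `Γ / N` which uses every edge exactly `M` times. -/
structure Bal {Γ Λ : Type} [Group Γ] (N : Subgroup Γ) (q : Λ → Γ) (M : ℕ) (B : List Λ) : Prop where
  one : (B.map q).prod ∈ N
  cnt : ∀ (x : Γ) (s : Λ), {i : ℕ | B[i]? = some s ∧ x⁻¹ * ((B.take i).map q).prod ∈ N}.ncard = M

/-! ### A cyclic arrangement of the edges with a prescribed beginning -/

section cyc

variable {K Λ : Type} [Group K] {q : Λ → K}

/-- There is an arrangement with the prescribed beginning. -/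
theorem exists_pre {m : ℕ} {e : ℕ → K × Λ} (hinj : ∀ i < m, ∀ j < m, e i = e j → i = j)
    (hw : ∀ i, i + 1 < m → (e (i + 1)).1 = (e i).1 * q (e i).2) :
    ∀ k ≤ m, ∃ φ : Perm (K × Λ), SQ6.Eul.Nx q φ ∧ ∀ i, i + 1 < k → φ (e i) = e (i + 1) := by
  classical
  intro k
  induction k with
  | zero => exact fun _ => ⟨SQ6.Eul.base q, SQ6.Eul.nx_base, fun i hi => by omega⟩
  | succ k ih =>
    intro hk
    obtain ⟨φ, hφ, h⟩ := ih (by omega)
    rcases Nat.eq_zero_or_pos k with h0 | h0
    · subst h0
      exact ⟨φ, hφ, fun i hi => by omega⟩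
    obtain ⟨k, rfl⟩ : ∃ k', k = k' + 1 := ⟨k - 1, by omega⟩
    have hv : φ (φ⁻¹ (e (k + 1))) = e (k + 1) := φ.apply_symm_apply _
    refine ⟨φ * Equiv.swap (e k) (φ⁻¹ (e (k + 1))), SQ6.Eul.nx_swap hφ ?_, ?_⟩
    · rw [hv, hφ, hw k (by omega)]
    · intro i hi
      rw [Perm.mul_apply]
      rcases Nat.lt_or_ge i k with h1 | h1
      · rw [Equiv.swap_apply_of_ne_of_ne, h i (by omega)]
        · intro h2
          have := hinj i (by omega) k (by omega) h2
          omega
        · intro h2
          have h3 : φ (e i) = e (k + 1) := by rw [h2]; exact hv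
          rw [h i (by omega)] at h3
          have := hinj (i + 1) (by omega) (k + 1) (by omega) h3
          omega
      · have : i = k := by omega
        subst this
        rw [Equiv.swap_apply_left, hv]

/-- One cycle with the prescribed beginning. -/
theorem exists_cyc [Fintype K] [Fintype Λ] (F : Set Λ) (hF : Subgroup.closure (q '' F) = ⊤) {m : ℕ} (hm : 0 < m)
    {e : ℕ → K × Λ} (hinj : ∀ i < m, ∀ j < m, e i = e j → i = j)
    (hw : ∀ i, i + 1 < m → (e (i + 1)).1 = (e i).1 * q (e i).2)
    (hfree : ∀ i, i + 1 < m → (e i).2 ∉ F ∧ (e (i + 1)).2 ∉ F) :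
    ∃ φ : Perm (K × Λ), SQ6.Eul.Nx q φ ∧ (∀ i, i + 1 < m → φ (e i) = e (i + 1)) ∧ ∀ a, φ.SameCycle (e 0) a := by
  classical
  set P : ℕ → Prop := fun n => ∃ φ : Perm (K × Λ), SQ6.Eul.Nx q φ ∧ (∀ i, i + 1 < m → φ (e i) = e (i + 1)) ∧
    n = (Finset.univ.filter fun a => φ.SameCycle (e 0) a).card with hP
  obtain ⟨n, ⟨φ, hφ, hpre, hcard⟩, hmax⟩ : ∃ n, P n ∧ ∀ m, P m → m ≤ n := by
    obtain ⟨φ, h1, h2⟩ := exists_pre hinj hw m le_rfl
    have hbd : ∀ n, P n → n ≤ Fintype.card (K × Λ) := by
      rintro n ⟨φ, _, _, rfl⟩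
      exact Finset.card_le_univ _
    have hn0 : P _ := ⟨φ, h1, h2, rfl⟩
    exact ⟨Nat.findGreatest P (Fintype.card (K × Λ)), Nat.findGreatest_spec (hbd _ hn0) hn0,
      fun m hm => Nat.le_findGreatest (hbd m hm) hm⟩
  refine ⟨φ, hφ, hpre, ?_⟩
  -- the arcs with a free successor
  let Fr : K × Λ → Prop := fun a => ∀ i, i + 1 < m → a ≠ e i
  have hT : ∀ u v, Fr u → Fr v → (φ u).1 = (φ v).1 → φ.SameCycle (e 0) u → φ.SameCycle (e 0) v := by
    intro u v hu hv huv heu
    by_contra hev
    have hφ' : SQ6.Eul.Nx q (φ * Equiv.swap u v) := SQ6.Eul.nx_swap hφ huv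
    have hpre' : ∀ i, i + 1 < m → (φ * Equiv.swap u v) (e i) = e (i + 1) := by
      intro i hi
      rw [Perm.mul_apply, Equiv.swap_apply_of_ne_of_ne (Ne.symm (hu i hi)) (Ne.symm (hv i hi)), hpre i hi]
    have huv' : ¬ φ.SameCycle u v := fun h => hev (heu.trans h)
    have key := (HF.merge).swap φ u v huv'
    have hlt : (Finset.univ.filter fun a => φ.SameCycle (e 0) a).card
        < (Finset.univ.filter fun a => (φ * Equiv.swap u v).SameCycle (e 0) a).card := by
      apply Finset.card_lt_card
      rw [Finset.ssubset_iff_of_subset]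
      · refine ⟨v, ?_, ?_⟩
        · rw [Finset.mem_filter]
          exact ⟨Finset.mem_univ _, (key (e 0) v).2 (Or.inr ⟨Or.inl heu, Or.inr (SameCycle.refl _ _)⟩)⟩
        · rw [Finset.mem_filter]
          exact fun h => hev h.2
      · intro a ha
        rw [Finset.mem_filter] at ha ⊢
        exact ⟨ha.1, (key (e 0) a).2 (Or.inl ha.2)⟩
    have := hmax _ ⟨φ * Equiv.swap u v, hφ', hpre', rfl⟩
    omega
  have hstep : ∀ i < m, φ.SameCycle (e 0) (e i) := by
    intro i
    induction i with
    | zero => exact fun _ => SameCycle.refl _ _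
    | succ i ih =>
      intro hi
      rw [← hpre i hi]
      exact (sameCycle_apply_right).2 (ih (by omega))
  have hlast : Fr (e (m - 1)) := by
    intro i hi h
    have := hinj (m - 1) (by omega) i (by omega) h
    omega
  -- the vertices all of whose free arcs belong to the cycle
  let W : Set K := {x | ∀ v, Fr v → (φ v).1 = x → φ.SameCycle (e 0) v}
  have hW0 : (φ (e (m - 1))).1 ∈ W := fun v hv h =>
    hT _ v hlast hv h.symm (hstep _ (by omega))
  have hWs : ∀ x ∈ W, ∀ s ∈ F, x * q s ∈ W := by
    intro x hx s hs v hv h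
    have hu : φ (φ⁻¹ (x, s)) = (x, s) := φ.apply_symm_apply _
    have hufr : Fr (φ⁻¹ (x, s)) := by
      intro i hi h1
      rw [h1, hpre i hi] at hu
      exact (hfree i hi).2 (by rw [hu]; exact hs)
    have hsf : Fr (x, s) := by
      intro i hi h1
      exact (hfree i hi).1 (by rw [← h1]; exact hs)
    have h2 : φ.SameCycle (e 0) (x, s) := by
      have := hx _ hufr (by rw [hu])
      rw [← hu]
      exact (sameCycle_apply_right).2 this
    exact hT _ v hsf hv (by rw [hφ, h]) h2
  have hWg : ∀ g : K, ∀ x ∈ W, x * g ∈ W := by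
    intro g
    have hg : g ∈ Subgroup.closure (q '' F) := by rw [hF]; exact Subgroup.mem_top g
    have hg' : g ∈ (Subgroup.closure (q '' F)).toSubmonoid := hg
    rw [Subgroup.closure_toSubmonoid_of_finite] at hg'
    clear hg
    induction hg' using Submonoid.closure_induction with
    | mem y hy =>
      obtain ⟨s, hs, rfl⟩ := hy
      exact fun x hx => hWs x hx s hs
    | one =>
      intro x hx
      rwa [mul_one]
    | mul y z _ _ h1 h2 =>
      intro x hx
      rw [← mul_assoc]
      exact h2 _ (h1 _ hx)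
  intro a
  by_cases ha : Fr a
  · refine (?_ : (φ a).1 ∈ W) a ha rfl
    have := hWg ((φ (e (m - 1))).1⁻¹ * (φ a).1) _ hW0
    rwa [mul_inv_cancel_left] at this
  · simp only [Fr, not_forall, not_not] at ha
    obtain ⟨i, hi, rfl⟩ := ha
    exact hstep i (by omega)

end cyc

/-! ### Existence -/

section ex

variable {Γ Λ : Type} [Group Γ]

/-- **BAL**: every list of labels of length less than `M` is the beginning of a balanced walk. -/
theorem exists_bal [Finite Γ] [Finite Λ] (N : Subgroup Γ) (hN : N.Normal) (q : Λ → Γ) [Nonempty Λ]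
    (hcl : Subgroup.closure (Set.range q) = ⊤) (M : ℕ) (l : List Λ) (hl : l.length < M) :
    ∃ l' : List Λ, Bal N q M (l ++ l') := by
  classical
  have := Fintype.ofFinite Λ
  have := Fintype.ofFinite (Γ ⧸ N)
  obtain ⟨s0⟩ : Nonempty Λ := inferInstance
  -- the walk in `Γ / N` with labels in `Λ × Fin M`
  let q' : Λ × Fin M → Γ ⧸ N := fun a => QuotientGroup.mk' N (q a.1)
  have hM : 0 < M := by omega
  let b : ℕ → Λ := fun i => l.getD i s0
  let c : ℕ → Fin M := fun i => if h : i < M then ⟨i, h⟩ else ⟨0, hM⟩
  let e : ℕ → (Γ ⧸ N) × (Λ × Fin M) := fun i => (QuotientGroup.mk' N ((l.take i).map q).prod, (b i, c i))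
  let m : ℕ := max l.length 1
  have hml : m ≤ M := by simp only [m]; omega
  have hc : ∀ i, i < M → (c i : ℕ) = i := by
    intro i hi
    have h1 : c i = ⟨i, hi⟩ := dif_pos hi
    rw [h1]
  have hinj : ∀ i < m, ∀ j < m, e i = e j → i = j := by
    intro i hi j hj h
    have h1 : c i = c j := congrArg (fun a => a.2.2) h
    have h2 : (c i : ℕ) = (c j : ℕ) := congrArg (fun a : Fin M => (a : ℕ)) h1
    rwa [hc i (by omega), hc j (by omega)] at h2
  have hw : ∀ i, i + 1 < m → (e (i + 1)).1 = (e i).1 * q' (e i).2 := by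
    intro i hi
    have hi' : i < l.length := by simp only [m] at hi; omega
    show QuotientGroup.mk' N ((l.take (i + 1)).map q).prod
      = QuotientGroup.mk' N ((l.take i).map q).prod * QuotientGroup.mk' N (q (l.getD i s0))
    rw [List.take_succ_eq_append_getElem hi', List.map_append, List.prod_append, map_mul,
      List.getD_eq_getElem _ _ hi', List.map_singleton, List.prod_singleton]
  let F : Set (Λ × Fin M) := {a | (a.2 : ℕ) = M - 1}
  have hfree : ∀ i, i + 1 < m → (e i).2 ∉ F ∧ (e (i + 1)).2 ∉ F := by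
    intro i hi
    have hi' : i + 1 < l.length := by simp only [m] at hi; omega
    constructor
    · intro h
      have h1 : (c i : ℕ) = M - 1 := h
      rw [hc i (by omega)] at h1
      omega
    · intro h
      have h1 : (c (i + 1) : ℕ) = M - 1 := h
      rw [hc (i + 1) (by omega)] at h1
      omega
  have hF : Subgroup.closure (q' '' F) = ⊤ := by
    have h1 : q' '' F = (QuotientGroup.mk' N) '' (Set.range q) := by
      ext x
      constructor
      · rintro ⟨a, _, rfl⟩
        exact ⟨q a.1, ⟨a.1, rfl⟩, rfl⟩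
      · rintro ⟨_, ⟨s, rfl⟩, rfl⟩
        exact ⟨(s, ⟨M - 1, by omega⟩), rfl, rfl⟩
    rw [h1, ← MonoidHom.map_closure, hcl, ← MonoidHom.range_eq_map, MonoidHom.range_eq_top]
    exact QuotientGroup.mk'_surjective N
  obtain ⟨φ, hφ, hpre, hall⟩ := exists_cyc F hF (m := m) (by simp only [m]; omega) hinj hw hfree
  set n := Fintype.card ((Γ ⧸ N) × (Λ × Fin M)) with hn
  have hper : minimalPeriod φ (e 0) = n := by
    have hb : Function.Bijective fun i : Fin (minimalPeriod φ (e 0)) => φ^[(i : ℕ)] (e 0) := by
      constructor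
      · intro i j hij
        exact Fin.ext (iterate_injOn_Iio_minimalPeriod i.2 j.2 hij)
      · intro y
        obtain ⟨i, hi⟩ := (hall y).exists_nat_pow_eq
        have hpos : 0 < minimalPeriod φ (e 0) :=
          minimalPeriod_pos_of_mem_periodicPts (φ.injective.mem_periodicPts (e 0))
        refine ⟨⟨i % minimalPeriod φ (e 0), Nat.mod_lt _ hpos⟩, ?_⟩
        simp only
        rw [iterate_mod_minimalPeriod_eq, Equiv.Perm.iterate_eq_pow, hi]
    have h1 := Fintype.card_of_bijective hb
    rwa [Fintype.card_fin] at h1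
  let a : ℕ → (Γ ⧸ N) × (Λ × Fin M) := fun i => φ^[i] (e 0)
  have ha0 : a 0 = e 0 := rfl
  have has : ∀ i, a (i + 1) = φ (a i) := fun i => iterate_succ_apply' _ _ _
  have hapre : ∀ i < m, a i = e i := by
    intro i
    induction i with
    | zero => exact fun _ => rfl
    | succ i ih =>
      intro hi
      rw [has, ih (by omega), hpre i hi]
  have hnl : l.length ≤ n := by
    by_contra hlt
    push Not at hlt
    have h1 : Function.Injective (fun i : Fin l.length => e i) := by
      intro i j hij
      exact Fin.ext (hinj i (by simp only [m]; omega) j (by simp only [m]; omega) hij)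
    have h2 := Fintype.card_le_of_injective _ h1
    rw [Fintype.card_fin, ← hn] at h2
    omega
  set B : List Λ := List.ofFn fun i : Fin n => (a i).2.1 with hB
  have hBl : B.length = n := List.length_ofFn
  have hget : ∀ i, i < n → B[i]? = some (a i).2.1 := by
    intro i hi
    rw [hB, List.getElem?_ofFn, dif_pos hi]
  have hprod : ∀ j ≤ n, QuotientGroup.mk' N ((B.take j).map q).prod = (a j).1 := by
    intro j hj
    induction j with
    | zero => simp [ha0, e]
    | succ j ih =>
      have hj' : j < B.length := by omega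
      rw [List.take_succ_eq_append_getElem hj', List.map_append, List.prod_append, map_mul, ih (by omega),
        has, hφ]
      simp [hB, q']
  have htake : B.take l.length = l := by
    apply List.ext_getElem?
    intro i
    rcases Nat.lt_or_ge i l.length with hi | hi
    · rw [List.getElem?_take_of_lt hi, hget i (by omega), hapre i (by simp only [m]; omega)]
      simp only [e, b]
      rw [List.getD_eq_getElem _ _ hi, List.getElem?_eq_getElem hi]
    · rw [List.getElem?_eq_none (by rw [List.length_take]; omega), List.getElem?_eq_none hi]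
  refine ⟨B.drop l.length, ?_⟩
  have hBB : l ++ B.drop l.length = B := by
    conv_lhs => rw [← htake]
    conv_lhs => rw [List.length_take, min_eq_left (by omega), List.take_append_drop]
  rw [hBB]
  refine ⟨?_, ?_⟩
  · rw [← QuotientGroup.ker_mk' N, MonoidHom.mem_ker]
    have h1 := hprod n le_rfl
    rw [List.take_of_length_le (by omega)] at h1
    rw [h1]
    show (φ^[n] (e 0)).1 = 1
    rw [← hper, iterate_minimalPeriod]
    simp [e]
  · intro x s
    have hinjA : Set.InjOn a {i | i < n} := by
      intro i hi j hj hij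
      rw [← hper] at hi hj
      exact iterate_injOn_Iio_minimalPeriod hi hj hij
    have himg : a '' {i : ℕ | B[i]? = some s ∧ x⁻¹ * ((B.take i).map q).prod ∈ N}
        = (fun j : Fin M => ((QuotientGroup.mk' N x, (s, j)) : (Γ ⧸ N) × (Λ × Fin M))) '' Set.univ := by
      ext y
      constructor
      · rintro ⟨i, ⟨h1, h2⟩, rfl⟩
        have hi : i < n := by
          rw [← hBl]
          exact (List.getElem?_eq_some_iff.1 h1).1
        rw [hget i hi] at h1
        refine ⟨(a i).2.2, trivial, ?_⟩
        have h3 : QuotientGroup.mk' N x = (a i).1 := by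
          rw [← hprod i hi.le]
          exact QuotientGroup.eq.2 h2
        rw [h3, ← Option.some.inj h1]
      · rintro ⟨j, _, rfl⟩
        obtain ⟨i, hi⟩ := (hall (QuotientGroup.mk' N x, (s, j))).exists_nat_pow_eq
        have hpos : 0 < n := by
          rw [← hper]
          exact minimalPeriod_pos_of_mem_periodicPts (φ.injective.mem_periodicPts (e 0))
        have hi' : a (i % n) = (QuotientGroup.mk' N x, (s, j)) := by
          show φ^[i % n] (e 0) = _
          rw [← hper, iterate_mod_minimalPeriod_eq, Equiv.Perm.iterate_eq_pow, hi]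
        have hlt : i % n < n := Nat.mod_lt _ hpos
        refine ⟨i % n, ⟨?_, ?_⟩, hi'⟩
        · rw [hget _ hlt, hi']
        · have h3 := hprod (i % n) hlt.le
          rw [hi'] at h3
          exact QuotientGroup.eq.1 h3.symm
    have h1 : {i : ℕ | B[i]? = some s ∧ x⁻¹ * ((B.take i).map q).prod ∈ N} ⊆ {i | i < n} := by
      intro i hi
      rw [Set.mem_ofPred_eq, ← hBl]
      exact (List.getElem?_eq_some_iff.1 hi.1).1
    rw [← (hinjA.mono h1).ncard_image, himg, Set.ncard_image_of_injective, Set.ncard_univ,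
      Nat.card_eq_fintype_card, Fintype.card_fin]
    intro j j' hj
    exact congrArg (fun a => a.2.2) hj

end ex

/-! ### Properties -/

section props

variable {Γ Λ : Type} [Group Γ] {N : Subgroup Γ} {q : Λ → Γ} {M : ℕ} {B : List Λ}

theorem Bal.fin (s : Λ) (x : Γ) : {i : ℕ | B[i]? = some s ∧ x⁻¹ * ((B.take i).map q).prod ∈ N}.Finite := by
  refine (Set.finite_Iio B.length).subset fun i hi => ?_
  exact (List.getElem?_eq_some_iff.1 hi.1).1

/-- The prefixes meet all classes. -/
theorem Bal.all [Nonempty Λ] (h : Bal N q M B) (hM : 0 < M) (x : Γ) :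
    ∃ i < B.length, (((B.take i).map q).prod)⁻¹ * x ∈ N := by
  obtain ⟨s⟩ : Nonempty Λ := inferInstance
  have h1 := h.cnt x s
  have h2 : {i : ℕ | B[i]? = some s ∧ x⁻¹ * ((B.take i).map q).prod ∈ N}.Nonempty := by
    rw [Set.nonempty_iff_ne_empty]
    intro h3
    rw [h3, Set.ncard_empty] at h1
    omega
  obtain ⟨i, hi, hx⟩ := h2
  refine ⟨i, (List.getElem?_eq_some_iff.1 hi).1, ?_⟩
  have := N.inv_mem hx
  rwa [mul_inv_rev, inv_inv] at this

/-- Every edge is used. -/
theorem Bal.edge (h : Bal N q M B) (hM : 0 < M) (x : Γ) (s : Λ) :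
    ∃ i, ∃ hi : i < B.length, B[i] = s ∧ x⁻¹ * ((B.take i).map q).prod ∈ N := by
  have h1 := h.cnt x s
  have h2 : {i : ℕ | B[i]? = some s ∧ x⁻¹ * ((B.take i).map q).prod ∈ N}.Nonempty := by
    rw [Set.nonempty_iff_ne_empty]
    intro h3
    rw [h3, Set.ncard_empty] at h1
    omega
  obtain ⟨i, hi, hx⟩ := h2
  obtain ⟨h3, h4⟩ := List.getElem?_eq_some_iff.1 hi
  exact ⟨i, h3, h4, hx⟩

open Classical in
/-- The general sum over a balanced walk: every edge counts `M` times. -/
theorem Bal.sum [Finite Γ] [Fintype Λ] (h : Bal N q M B) (hN : N.Normal) {Z : Type*} [CommMonoid Z]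
    [Fintype (Γ ⧸ N)] (f : (Γ ⧸ N) × Λ → Z) :
    ∏ i ∈ Finset.range B.length, (if hi : i < B.length then
      f (QuotientGroup.mk' N ((B.take i).map q).prod, B[i]) else 1) = (∏ a, f a) ^ M := by
  classical
  rcases isEmpty_or_nonempty Λ with hΛ | hΛ
  · have h1 : B = [] := by
      rcases B with _ | ⟨b, B⟩
      · rfl
      · exact (hΛ.false b).elim
    subst h1
    simp
  obtain ⟨s0⟩ : Nonempty Λ := inferInstance
  let g : ℕ → (Γ ⧸ N) × Λ := fun i => (QuotientGroup.mk' N ((B.take i).map q).prod, B.getD i s0)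
  have h1 : ∏ i ∈ Finset.range B.length, (if hi : i < B.length then
      f (QuotientGroup.mk' N ((B.take i).map q).prod, B[i]) else 1) = ∏ i ∈ Finset.range B.length, f (g i) := by
    refine Finset.prod_congr rfl fun i hi => ?_
    have hi' := Finset.mem_range.1 hi
    rw [dif_pos hi']
    show _ = f (_, B.getD i s0)
    rw [List.getD_eq_getElem _ _ hi']
  rw [h1, ← Finset.prod_fiberwise' _ g f, ← Finset.prod_pow]
  refine Finset.prod_congr rfl fun a _ => ?_
  rw [Finset.prod_const]
  congr 1
  obtain ⟨x, s⟩ := a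
  obtain ⟨x, rfl⟩ := QuotientGroup.mk'_surjective N x
  rw [← h.cnt x s, ← Set.ncard_coe_finset]
  congr 1
  ext i
  rw [Finset.mem_coe, Finset.mem_filter, Finset.mem_range, Set.mem_ofPred_eq]
  constructor
  · rintro ⟨hi, h2⟩
    have h3 : QuotientGroup.mk' N ((B.take i).map q).prod = QuotientGroup.mk' N x := congrArg Prod.fst h2
    have h4 : B.getD i s0 = s := congrArg Prod.snd h2
    rw [List.getD_eq_getElem _ _ hi] at h4
    exact ⟨by rw [List.getElem?_eq_getElem hi, h4], QuotientGroup.eq.1 h3.symm⟩
  · rintro ⟨h2, h3⟩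
    obtain ⟨hi, h4⟩ := List.getElem?_eq_some_iff.1 h2
    refine ⟨hi, Prod.ext (QuotientGroup.eq.2 h3).symm ?_⟩
    show B.getD i s0 = s
    rw [List.getD_eq_getElem _ _ hi, h4]

/-- The image in a commutative group. -/
theorem Bal.hom [Finite Γ] [Fintype Λ] (h : Bal N q M B) (hN : N.Normal) {Z : Type*} [CommMonoid Z] (f : Γ →* Z) :
    f (B.map q).prod = (∏ s, f (q s)) ^ (M * N.index) := by
  classical
  have := Fintype.ofFinite (Γ ⧸ N)
  have h1 := h.sum hN (fun a => f (q a.2))
  have h2 : ∀ j ≤ B.length, f ((B.take j).map q).prod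
      = ∏ i ∈ Finset.range j, (if hi : i < B.length then f (q B[i]) else 1) := by
    intro j hj
    induction j with
    | zero => simp
    | succ j ih =>
      have hj' : j < B.length := by omega
      rw [List.take_succ_eq_append_getElem hj', List.map_append, List.prod_append, map_mul, ih (by omega),
        Finset.prod_range_succ, dif_pos hj', List.map_singleton, List.prod_singleton]
  have h3 := h2 B.length le_rfl
  rw [List.take_length] at h3
  rw [h3, h1, Fintype.prod_prod_type]
  simp only [Finset.prod_const, Finset.card_univ]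
  rw [← pow_mul, mul_comm, Subgroup.index, Nat.card_eq_fintype_card]

/-- The length of a balanced walk. -/
theorem Bal.length [Finite Γ] [Finite Λ] (h : Bal N q M B) (hN : N.Normal) :
    B.length = M * (N.index * Nat.card Λ) := by
  classical
  have := Fintype.ofFinite Λ
  have := Fintype.ofFinite (Γ ⧸ N)
  have h1 := h.sum hN (Z := Multiplicative ℕ) (fun _ => Multiplicative.ofAdd 1)
  have h2 : (∏ i ∈ Finset.range B.length, (if i < B.length then (Multiplicative.ofAdd 1 : Multiplicative ℕ) else 1))
      = ∏ i ∈ Finset.range B.length, (Multiplicative.ofAdd 1 : Multiplicative ℕ) :=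
    Finset.prod_congr rfl fun i hi => if_pos (Finset.mem_range.1 hi)
  simp only [dite_eq_ite] at h1
  rw [h2, Finset.prod_const, Finset.prod_const, Finset.card_range, ← ofAdd_nsmul, ← ofAdd_nsmul, ← ofAdd_nsmul] at h1
  have h3 := Multiplicative.ofAdd.injective h1
  simp only [smul_eq_mul, mul_one] at h3
  rw [h3, Finset.card_univ, Fintype.card_prod, Subgroup.index, Nat.card_eq_fintype_card, Nat.card_eq_fintype_card]

/-- The number of places with a given label. -/
theorem Bal.count [Finite Γ] [Finite Λ] [DecidableEq Λ] (h : Bal N q M B) (hN : N.Normal) (s : Λ) :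
    B.count s = M * N.index := by
  classical
  have := Fintype.ofFinite Λ
  have := Fintype.ofFinite (Γ ⧸ N)
  have h1 := h.sum hN (Z := Multiplicative ℕ) (fun a => Multiplicative.ofAdd (if a.2 = s then 1 else 0))
  have h2 : ∀ j ≤ B.length, Multiplicative.ofAdd ((B.take j).count s)
      = ∏ i ∈ Finset.range j, (if hi : i < B.length then
        (Multiplicative.ofAdd (if B[i] = s then 1 else 0) : Multiplicative ℕ) else 1) := by
    intro j hj
    induction j with
    | zero => simp
    | succ j ih =>
      have hj' : j < B.length := by omega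
      rw [List.take_succ_eq_append_getElem hj', List.count_append, ofAdd_add, ih (by omega),
        Finset.prod_range_succ, dif_pos hj', List.count_singleton]
      congr 2
      by_cases h3 : B[j] = s
      · rw [if_pos h3, if_pos (by rw [h3]; exact beq_self_eq_true s)]
      · rw [if_neg h3, if_neg (by rw [beq_iff_eq]; exact h3)]
  have h3 := h2 B.length le_rfl
  rw [List.take_length, h1, Fintype.prod_prod_type] at h3
  have h4 : (∏ y : Λ, (Multiplicative.ofAdd (if y = s then 1 else 0) : Multiplicative ℕ)) = Multiplicative.ofAdd 1 := by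
    rw [Finset.prod_eq_single s]
    · rw [if_pos rfl]
    · intro y _ hy
      rw [if_neg hy]
      rfl
    · exact fun h => absurd (Finset.mem_univ _) h
  simp only [h4] at h3
  rw [Finset.prod_const, ← ofAdd_nsmul, ← ofAdd_nsmul] at h3
  have h5 := Multiplicative.ofAdd.injective h3
  simp only [smul_eq_mul, mul_one] at h5
  rw [h5, Finset.card_univ, Subgroup.index, Nat.card_eq_fintype_card]

end props

/-- **The Euler product**: the value of a balanced walk is the `M`-th power of one central element of `N`. -/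
theorem exists_lam {Γ Λ : Type} [Group Γ] [Finite Γ] [Finite Λ] (N : Subgroup Γ) (hN : N.Normal) (q : Λ → Γ)
    (hcl : Subgroup.closure (Set.range q) = ⊤) (hab : ∀ x ∈ N, ∀ y ∈ N, x * y = y * x) :
    ∃ lam ∈ N, (∀ x, x * lam = lam * x) ∧ ∀ M B, Bal N q M B → (B.map q).prod = lam ^ M := by
  classical
  have := Fintype.ofFinite Λ
  have := Fintype.ofFinite (Γ ⧸ N)
  let _ : CommGroup N :=
    { (inferInstance : Group N) with mul_comm := fun a b => Subtype.ext (hab a.1 a.2 b.1 b.2) }
  let T : Γ ⧸ N → Γ := Quotient.out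
  have hmk : ∀ x : Γ ⧸ N, QuotientGroup.mk' N (T x) = x := fun x => QuotientGroup.out_eq' x
  have hmemN : ∀ g : Γ, QuotientGroup.mk' N g = 1 → g ∈ N := fun g hg => (QuotientGroup.eq_one_iff g).1 hg
  let nn : (Γ ⧸ N) × Λ → N := fun a => ⟨T a.1 * q a.2 * (T (a.1 * QuotientGroup.mk' N (q a.2)))⁻¹, by
    apply hmemN
    rw [map_mul, map_mul, map_inv, hmk, hmk, mul_inv_cancel]⟩
  have ht : T 1 ∈ N := hmemN _ (hmk 1)
  have hval : ∀ M B, Bal N q M B → (B.map q).prod = ((∏ a, nn a : N) : Γ) ^ M := by
    intro M B hB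
    have h1 := hB.sum hN nn
    have hpart : ∀ j ≤ B.length, ((B.take j).map q).prod = (T 1)⁻¹ *
        ((∏ i ∈ Finset.range j, (if hi : i < B.length then
          nn (QuotientGroup.mk' N ((B.take i).map q).prod, B[i]) else 1) : N) : Γ) *
          T (QuotientGroup.mk' N ((B.take j).map q).prod) := by
      intro j hj
      induction j with
      | zero =>
        have : QuotientGroup.mk' N ((B.take 0).map q).prod = 1 := by
          rw [List.take_zero, List.map_nil, List.prod_nil, map_one]
        rw [this]
        simp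
      | succ j ih =>
        have hj' : j < B.length := by omega
        have e0 : ((B.take (j + 1)).map q).prod = ((B.take j).map q).prod * q B[j] := by
          rw [List.take_succ_eq_append_getElem hj', List.map_append, List.prod_append, List.map_singleton,
            List.prod_singleton]
        have e1 : ((nn (QuotientGroup.mk' N ((B.take j).map q).prod, B[j]) : N) : Γ)
            = T (QuotientGroup.mk' N ((B.take j).map q).prod) * q B[j] *
              (T (QuotientGroup.mk' N ((B.take (j + 1)).map q).prod))⁻¹ := by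
          rw [e0, map_mul]
        rw [Finset.prod_range_succ, dif_pos hj', Subgroup.coe_mul, e1]
        conv_lhs => rw [e0, ih (by omega)]
        group
    have h2 := hpart B.length le_rfl
    rw [List.take_length, h1] at h2
    have h3 : QuotientGroup.mk' N (B.map q).prod = 1 := (QuotientGroup.eq_one_iff _).2 hB.one
    rw [h2, h3, mul_assoc, ← hab _ ht _ (SetLike.coe_mem _), inv_mul_cancel_left, Subgroup.coe_pow]
  refine ⟨((∏ a, nn a : N) : Γ), SetLike.coe_mem _, ?_, hval⟩
  -- central
  rcases isEmpty_or_nonempty Λ with hΛ | hΛ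
  · intro x
    have h1 : x ∈ Subgroup.closure (Set.range q) := by rw [hcl]; exact Subgroup.mem_top x
    rw [Set.range_eq_empty, Subgroup.closure_empty, Subgroup.mem_bot] at h1
    rw [h1, one_mul, mul_one]
  obtain ⟨B, hB⟩ := exists_bal N hN q hcl 1 [] (by simp)
  rw [List.nil_append] at hB
  have h1 : (B.map (fun s => QuotientGroup.mk' N (q s))).prod = 1 := by
    have : B.map (fun s => QuotientGroup.mk' N (q s)) = (B.map q).map (QuotientGroup.mk' N) := by
      rw [List.map_map]
      rfl
    rw [this, ← map_list_prod]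
    exact (QuotientGroup.eq_one_iff _).2 hB.one
  have h2 := SQ6.cen Γ N hN Λ q B hab (by rw [hB.length hN, one_mul, Subgroup.index]) h1 (by
    intro x s
    obtain ⟨x, rfl⟩ := QuotientGroup.mk'_surjective N x
    obtain ⟨i, hi, h3, h4⟩ := hB.edge one_pos x s
    refine ⟨i, hi, h3, ?_⟩
    have : (B.take i).map (fun s => QuotientGroup.mk' N (q s)) = ((B.take i).map q).map (QuotientGroup.mk' N) := by
      rw [List.map_map]
      rfl
    rw [this, ← map_list_prod]
    exact (QuotientGroup.eq.2 h4).symm)
  have h3 := hval 1 B hB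
  rw [pow_one] at h3
  rw [← h3]
  exact h2.2

end Pool.Agent.Lib.MP_688fd0_co.SQ7.H90
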