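import Pool.Agent.Lib.MP_688fd0_co.SQ7.H90.Mul2

/-!
Type C2, B1-FULL, row MUL, part 3: the structure `WDat` from the group data, and the bound of `Q`.
-/

set_option autoImplicit false

namespace Pool.Agent.Lib.MP_688fd0_co.SQ7.H90

open Subgroup Pool.Agent.Lib.MP_688fd0_co.OSF Pool.Agent.Lib.MP_688fd0_co.SQ2 Pool.Agent.Lib.MP_688fd0_co.SQ2.H41
open Pool.Agent.Lib.MP_688fd0_co.SQ7.H31 (qT coe_qT beq_eq WDat)

variable {G : Type} [Group G]

/-- The value of a word in a commutative group. -/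
theorem n_val {S : Lets G} {T : Subgroup G} {X : Type} [CommGroup X] (n : T →* X) (hm : ∀ s, S.sv s ∈ T) (B : List Lt)
    (c : Lt → ℕ) (hB : ∀ s, B.count s = c s) (hv : (B.map S.sv).prod ∈ T) :
    n ⟨(B.map S.sv).prod, hv⟩ = ∏ s, n (qT S T hm s) ^ c s := by
  have h1 : (⟨(B.map S.sv).prod, hv⟩ : T) = (B.map (qT S T hm)).prod := Subtype.ext (coe_qT S T hm B).symm
  rw [h1, map_list_prod, List.map_map, Finset.prod_list_map_count]
  have h2 : ∀ s, @List.count Lt instBEqOfDecidableEq s B = c s := fun s => by rw [← beq_eq]; exact hB s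
  have h0 : ∏ s ∈ B.toFinset, (n ∘ qT S T hm) s ^ (@List.count Lt instBEqOfDecidableEq s B) =
      ∏ s ∈ B.toFinset, n (qT S T hm s) ^ c s := Finset.prod_congr rfl fun s _ => by rw [h2 s]; rfl
  refine Eq.trans h0 ?_
  refine Finset.prod_subset (Finset.subset_univ _) fun s _ hs => ?_
  have h3 : s ∉ B := fun h => hs (List.mem_toFinset.2 h)
  have h4 : c s = 0 := by rw [← hB s]; exact List.count_eq_zero_of_not_mem h3
  rw [h4, pow_zero]

theorem prod_Lt {X : Type} [CommGroup X] (f : Lt → X) :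
    ∏ s, f s = f (true, true) * f (true, false) * (f (false, true) * f (false, false)) := by
  rw [Fintype.prod_prod_type, Fintype.prod_bool, Fintype.prod_bool, Fintype.prod_bool]

section

variable [Finite G] {N C : Subgroup G} {eps : G →* ℤˣ} {k P : ℕ} {A : Set G} {S : Lets G} {D : Set G} {T V Nv : Subgroup G}
    {L δ : ℕ} {lev : G → ZMod L} (h : Dat N C eps k P A S D T V Nv L δ lev)

include h

theorem val_T (B : List Lt) : (B.map S.sv).prod ∈ T := by
  refine T.list_prod_mem fun x hx => ?_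
  obtain ⟨y, -, rfl⟩ := List.mem_map.1 hx
  exact h.sv_mem y

theorem dvd_N {q : ℕ} {x : G} (hx : x ∈ N) (hq : q ∣ orderOf x) : q ∣ Nat.card N := by
  have h1 := orderOf_dvd_natCard (⟨x, hx⟩ : N)
  rw [← Subgroup.orderOf_coe] at h1
  exact hq.trans h1

/-- **Kind 1** (`t' = t⁻¹`). -/
theorem kind1 (hk : S.al true = (S.al false)⁻¹) (B : List Lt) (M : ℕ) (hB : ∀ s, B.count s = M)
    (hN : (B.map S.sv).prod ∈ N) (hc : ∀ x ∈ T, x * (B.map S.sv).prod = (B.map S.sv).prod * x) :
    (B.map S.sv).prod ∈ Nv := by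
  rw [h.Nv_mem]
  refine ⟨hN, val_T h B, Nat.coprime_of_dvd ?_⟩
  intro q hq hq1 hq2
  obtain ⟨μ, X, _, n, s, hμN⟩ := exists_sit h hq hN (val_T h B) hc hq1
  obtain ⟨e, he, hs⟩ := sign h s hμN
  have hnot := not_all h s hμN hq2
  -- the relations
  have r1 : n (qT S T h.sv_mem (false, true)) = (n (qT S T h.sv_mem (true, false)))⁻¹ ^ e := by
    have h1 : S.al false * (S.be true)⁻¹ ∈ T := h.sv_mem (false, true)
    have h2 : (S.al false)⁻¹ * (S.be true)⁻¹⁻¹ ∈ T := by
      have := h.sv_mem (true, false)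
      rw [Lets.sv, hk] at this
      rw [h.be_inv, inv_inv]
      exact this
    have h3 := rel1 h s hs (al_ltr S false) (h.neg _ (h.al false)) h1 h2
    have h4 : qT S T h.sv_mem (false, true) = ⟨S.al false * (S.be true)⁻¹, h1⟩ := rfl
    have h5 : qT S T h.sv_mem (true, false) = ⟨(S.al false)⁻¹ * (S.be true)⁻¹⁻¹, h2⟩ := by
      apply Subtype.ext
      show S.al true * (S.be false)⁻¹ = (S.al false)⁻¹ * (S.be true)⁻¹⁻¹
      rw [hk, h.be_inv, inv_inv]
    rw [h4, h5, h3]
  have r2 : n (qT S T h.sv_mem (false, false)) = (n (qT S T h.sv_mem (true, true)))⁻¹ ^ e := by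
    have h1 : S.al false * (S.be false)⁻¹ ∈ T := h.sv_mem (false, false)
    have h2 : (S.al false)⁻¹ * (S.be false)⁻¹⁻¹ ∈ T := by
      have := h.sv_mem (true, true)
      rw [Lets.sv, hk, h.be_inv] at this
      exact this
    have h3 := rel1 h s hs (al_ltr S false) (h.neg _ (h.al false)) h1 h2
    have h4 : qT S T h.sv_mem (false, false) = ⟨S.al false * (S.be false)⁻¹, h1⟩ := rfl
    have h5 : qT S T h.sv_mem (true, true) = ⟨(S.al false)⁻¹ * (S.be false)⁻¹⁻¹, h2⟩ := by
      apply Subtype.ext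
      show S.al true * (S.be true)⁻¹ = (S.al false)⁻¹ * (S.be false)⁻¹⁻¹
      rw [hk, h.be_inv]
    rw [h4, h5, h3]
  rcases he with rfl | rfl
  · -- the value is trivial
    have h1 := n_val n h.sv_mem B (fun _ => M) hB (val_T h B)
    rw [prod_Lt] at h1
    have h2 : n ⟨(B.map S.sv).prod, val_T h B⟩ = 1 := by
      rw [h1, r1, r2, zpow_one, zpow_one, ← mul_pow, ← mul_pow, ← mul_pow]
      have h3 : ∀ x y : X, x * y * (y⁻¹ * x⁻¹) = 1 := fun x y => by group
      rw [h3, one_pow]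
    rw [s.hn, ← Subgroup.orderOf_coe] at h2
    exact (Nat.Prime.coprime_iff_not_dvd hq).1 h2.symm hq1
  · -- all letters have the same value
    have r1' : n (qT S T h.sv_mem (false, true)) = n (qT S T h.sv_mem (true, false)) := by
      rw [r1, zpow_neg_one, inv_inv]
    have r2' : n (qT S T h.sv_mem (false, false)) = n (qT S T h.sv_mem (true, true)) := by
      rw [r2, zpow_neg_one, inv_inv]
    have hbb : S.be false * S.be false ∈ T :=
      odd_mul h (be_ltr S false) (h.neg _ (h.be false)) (be_ltr S false) (h.neg _ (h.be false))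
    have hb1 : n ⟨_, hbb⟩ = 1 := by
      apply sq_one s
      have h1 := n_conj h s hs (be_ltr S false) (h.neg _ (h.be false)) ⟨_, hbb⟩
      rw [zpow_neg_one] at h1
      rw [← h1]
      congr 1
      apply Subtype.ext
      push_cast
      group
    have r3 : n (qT S T h.sv_mem (false, true)) = n (qT S T h.sv_mem (false, false)) := by
      have h1 : qT S T h.sv_mem (false, true) = qT S T h.sv_mem (false, false) * ⟨_, hbb⟩ := by
        apply Subtype.ext
        show S.al false * (S.be true)⁻¹ = S.al false * (S.be false)⁻¹ * (S.be false * S.be false)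
        rw [h.be_inv]
        group
      rw [h1, map_mul, hb1, mul_one]
    apply hnot
    have hx : ∀ x, n (qT S T h.sv_mem x) = n (qT S T h.sv_mem (false, false)) := by
      rintro ⟨i, j⟩
      cases i <;> cases j
      · rfl
      · exact r3
      · rw [← r1', r3]
      · rw [r2']
    intro x y
    rw [hx x, hx y]

/-- **Kind 2** (involutions): the residue of the multiplicity of `t` at one prime. -/
theorem kind2 (hk : ∀ x ∈ A, x * x = 1) (M κ q : ℕ) (hq : q.Prime) : ∃ r : ℕ, ∀ m₀ m₁ : ℕ, m₀ + m₁ = 2 * M →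
    m₀ ≡ r [MOD q] → ∀ B : List Lt, (∀ s : Lt, B.count s = κ * (if s.1 then m₁ else m₀)) → (B.map S.sv).prod ∈ N →
    (∀ x ∈ T, x * (B.map S.sv).prod = (B.map S.sv).prod * x) →
    ¬ (q ∣ orderOf (B.map S.sv).prod ∧ q ∣ Nat.card V) := by
  by_cases hex : ∃ x ∈ N, x ∈ T ∧ (∀ y ∈ T, y * x = x * y) ∧ q ∣ orderOf x ∧ q ∣ Nat.card V
  swap
  · refine ⟨0, fun m₀ m₁ _ _ B _ hN hc hq2 => hex ⟨_, hN, val_T h B, hc, hq2.1, hq2.2⟩⟩
  obtain ⟨x, hxN, hxT, hxc, hqx, hqV⟩ := hex
  obtain ⟨μ, X, _, n, s, hμN⟩ := exists_sit h hq hxN hxT hxc hqx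
  have hnot := not_all h s hμN hqV
  have hbt : S.be true = S.be false := by
    rw [h.be_inv]
    exact inv_eq_of_mul_eq_one_left (hk _ (h.be false))
  have hj : ∀ i j, n (qT S T h.sv_mem (i, j)) = n (qT S T h.sv_mem (i, false)) := by
    intro i j
    cases j
    · rfl
    · congr 1
      apply Subtype.ext
      show S.al i * (S.be true)⁻¹ = S.al i * (S.be false)⁻¹
      rw [hbt]
  set x₀ := n (qT S T h.sv_mem (false, false)) with hx₀
  set x₁ := n (qT S T h.sv_mem (true, false)) with hx₁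
  have hne : x₀ * x₁⁻¹ ≠ 1 := by
    intro h1
    have h2 : x₀ = x₁ := mul_inv_eq_one.1 h1
    apply hnot
    have hx : ∀ x, n (qT S T h.sv_mem x) = x₀ := by
      rintro ⟨i, j⟩
      rw [hj]
      cases i
      · rfl
      · exact h2.symm
    intro x y
    rw [hx x, hx y]
  have hF : Fact q.Prime := ⟨hq⟩
  have hXf : Finite X := Nat.finite_of_card_ne_zero (by rw [s.card]; exact hq.pos.ne')
  obtain ⟨r, hr⟩ : ∃ r : ℕ, (x₀ * x₁⁻¹) ^ r = (x₁ ^ (2 * M))⁻¹ := by
    have h1 := mem_zpowers_of_prime_card s.card hne (g' := (x₁ ^ (2 * M))⁻¹)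
    rw [← mem_powers_iff_mem_zpowers] at h1
    obtain ⟨r, hr⟩ := Submonoid.mem_powers_iff _ _ |>.1 h1
    exact ⟨r, hr⟩
  refine ⟨r, fun m₀ m₁ hm hm₀ B hB hN hc hq2 => ?_⟩
  have hord : orderOf (x₀ * x₁⁻¹) ∣ q := by
    rw [← s.card]; exact orderOf_dvd_natCard _
  have h1 : (x₀ * x₁⁻¹) ^ m₀ = (x₁ ^ (2 * M))⁻¹ := by
    rw [← hr, pow_eq_pow_iff_modEq]
    exact hm₀.of_dvd hord
  have h2 : x₀ ^ m₀ * x₁ ^ m₁ = 1 := by
    have h3 : x₀ ^ m₀ * x₁ ^ m₁ = (x₀ * x₁⁻¹) ^ m₀ * x₁ ^ (m₀ + m₁) := by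
      rw [mul_pow, pow_add, inv_pow]
      have h4 : ∀ a b c : X, a * c = a * b⁻¹ * (b * c) := fun a b c => by group
      exact h4 _ _ _
    rw [h3, h1, hm, inv_mul_cancel]
  have h3 := n_val n h.sv_mem B _ hB (val_T h B)
  rw [prod_Lt, hj true true, hj false true] at h3
  have h4 : n ⟨(B.map S.sv).prod, val_T h B⟩ = 1 := by
    rw [h3]
    simp only [if_true, Bool.false_eq_true, if_false, ← hx₀, ← hx₁]
    have h5 : x₁ ^ (κ * m₁) * x₁ ^ (κ * m₁) * (x₀ ^ (κ * m₀) * x₀ ^ (κ * m₀)) = (x₀ ^ m₀ * x₁ ^ m₁) ^ (κ * 2) := by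
      rw [mul_pow, ← pow_mul, ← pow_mul, ← pow_add, ← pow_add]
      rw [mul_comm]
      congr 1 <;> · congr 1; ring
    rw [h5, h2, one_pow]
  rw [s.hn, ← Subgroup.orderOf_coe] at h4
  exact (Nat.Prime.coprime_iff_not_dvd hq).1 h4.symm hq2.1

omit h in
/-- The primes of `Refl.small`. -/
noncomputable def QS (C : Subgroup G) : Finset ℕ := by
  classical
  exact (Nat.card C).primeFactors.filter fun p =>
    ∀ y ∈ C, orderOf y = p → ∀ g : G, g * y * g⁻¹ = y ∨ g * y * g⁻¹ = y⁻¹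

omit h [Finite G] in
theorem mem_QS {C : Subgroup G} {q : ℕ} : q ∈ QS C ↔ q ∈ (Nat.card C).primeFactors ∧
    ∀ y ∈ C, orderOf y = q → ∀ g : G, g * y * g⁻¹ = y ∨ g * y * g⁻¹ = y⁻¹ := by
  classical
  unfold QS
  exact Finset.mem_filter

/-- If all letters are involutions, the primes in question are primes of `Refl.small`. -/
theorem inv_QS (hR : Subgroup.closure A = ⊤) (hk : ∀ x ∈ A, x * x = 1) {q : ℕ} (hq : q.Prime) {x : G} (hxN : x ∈ N)
    (hxT : x ∈ T) (hqx : q ∣ orderOf x) (hqV : q ∣ Nat.card V) : q ∈ QS C := by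
  have hqN := dvd_N h hxN hqx
  rw [mem_QS]
  constructor
  · refine Nat.mem_primeFactors.2 ⟨hq, ?_, Nat.card_pos.ne'⟩
    by_contra hqC
    set μ := x ^ (orderOf x / q) with hμdef
    have hμ : orderOf μ = q := orderOf_pow_orderOf_div (orderOf_pos x).ne' hqx
    have h1 : μ ∈ Nv := by
      refine h.Nv_C μ (N.pow_mem hxN _) (T.pow_mem hxT _) ?_
      rw [hμ]
      exact (Nat.Prime.coprime_iff_not_dvd hq).2 hqC
    have h2 := ((h.Nv_mem μ).1 h1).2.2
    rw [hμ] at h2
    exact (Nat.Prime.coprime_iff_not_dvd hq).1 h2 hqV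
  · intro y hyC hy
    have hyN := h.gn.CN hyC
    -- the letters
    have hA : ∀ a ∈ A, a * y * a⁻¹ = y ∨ a * y * a⁻¹ = y⁻¹ := by
      intro a ha
      obtain ⟨i, hi⟩ := conj_pow h.gn.Nn h.gn.Nc a⁻¹ hyN
      rw [inv_inv] at hi
      have hii : y ^ (i * i) = y := by
        have h1 : a * (a * y * a⁻¹) * a⁻¹ = y := by
          have h4 : a * (a * y * a⁻¹) * a⁻¹ = (a * a) * y * (a * a)⁻¹ := by group
          rw [h4, hk a ha, one_mul, inv_one, mul_one]
        rw [hi, ← conj_zpow, hi, ← zpow_mul] at h1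
        exact h1
      have hdvd : (q : ℤ) ∣ (i - 1) * (i + 1) := by
        have h1 : y ^ (i * i - 1) = 1 := by rw [zpow_sub_one, hii, mul_inv_cancel]
        have h2 := orderOf_dvd_iff_zpow_eq_one.2 h1
        rw [hy] at h2
        have h3 : (i - 1) * (i + 1) = i * i - 1 := by ring
        rw [h3]
        exact h2
      rw [hi]
      rcases (Nat.prime_iff_prime_int.1 hq).dvd_or_dvd hdvd with h1 | h1
      · left
        have h3 : y ^ (i - 1) = 1 := by
          apply orderOf_dvd_iff_zpow_eq_one.1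
          rw [hy]
          exact h1
        have h4 : y ^ i = y ^ (i - 1) * y := by rw [← zpow_add_one]; congr 1; ring
        rw [h4, h3, one_mul]
      · right
        have h3 : y ^ (i + 1) = 1 := by
          apply orderOf_dvd_iff_zpow_eq_one.1
          rw [hy]
          exact h1
        have h4 : y ^ i = y ^ (i + 1) * y⁻¹ := by rw [← zpow_neg_one, ← zpow_add]; congr 1; ring
        rw [h4, h3, one_mul]
    intro g
    have hg : g ∈ Subgroup.closure A := by rw [hR]; exact Subgroup.mem_top g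
    induction hg using Subgroup.closure_induction with
    | mem a ha => exact hA a ha
    | one => left; group
    | mul a b _ _ iha ihb =>
      have h1 : a * b * y * (a * b)⁻¹ = a * (b * y * b⁻¹) * a⁻¹ := by group
      rw [h1]
      rcases ihb with h2 | h2 <;> rw [h2]
      · exact iha
      · have h3 : a * y⁻¹ * a⁻¹ = (a * y * a⁻¹)⁻¹ := by group
        rw [h3]
        rcases iha with h4 | h4 <;> rw [h4]
        · right; rfl
        · left; exact inv_inv y
    | inv a _ iha =>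
      rcases iha with h2 | h2
      · left
        have h3 : y = a⁻¹ * (a * y * a⁻¹) * a := by group
        have h4 : a⁻¹ * y * a⁻¹⁻¹ = a⁻¹ * (a * y * a⁻¹) * a := by rw [h2, inv_inv]
        rw [h4, ← h3]
      · right
        have h3 : y⁻¹ = a⁻¹ * (a * y * a⁻¹)⁻¹ * a := by group
        have h4 : a⁻¹ * y * a⁻¹⁻¹ = a⁻¹ * (a * y * a⁻¹)⁻¹ * a := by rw [h2, inv_inv, inv_inv]
        rw [h4, ← h3]

omit h in
theorem prod_QS_le {c₁ : ℕ} (hR : SQD.Refl N C eps k P A c₁) :
    ∏ q ∈ QS C, q ≤ 2 ^ ((k + (Nat.card G).primeFactorsList.length) ^ (c₁ + 1)) := by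
  have h1 : ∀ q ∈ QS C, q ≤ 2 ^ ((k + (Nat.card G).primeFactorsList.length) ^ c₁) := fun q hq =>
    (hR.small q (mem_QS.1 hq).1 (mem_QS.1 hq).2).le
  have h2 : (QS C).card ≤ k + (Nat.card G).primeFactorsList.length := by
    refine le_trans (Finset.card_le_card (t := (Nat.card G).primeFactors) fun q hq => ?_) ?_
    · exact Nat.primeFactors_mono C.card_subgroup_dvd_card Nat.card_pos.ne' (mem_QS.1 hq).1
    · exact (List.toFinset_card_le _).trans (Nat.le_add_left _ _)
  calc ∏ q ∈ QS C, q ≤ ∏ q ∈ QS C, 2 ^ ((k + (Nat.card G).primeFactorsList.length) ^ c₁) :=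
        Finset.prod_le_prod' h1
    _ = 2 ^ ((k + (Nat.card G).primeFactorsList.length) ^ c₁ * (QS C).card) := by
        rw [Finset.prod_const, ← pow_mul]
    _ ≤ 2 ^ ((k + (Nat.card G).primeFactorsList.length) ^ (c₁ + 1)) := by
        apply Nat.pow_le_pow_right (by norm_num)
        rw [pow_succ]
        exact Nat.mul_le_mul_left _ h2

/-- **MUL.** -/
theorem wdat {c₁ : ℕ} (hR : SQD.Refl N C eps k P A c₁) :
    ∃ Q : ℕ, 0 < Q ∧ Q ≤ 2 ^ ((k + (Nat.card G).primeFactorsList.length) ^ (c₁ + 1)) ∧ WDat S T N Nv Q Q := by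
  have hab := comm_of_cyclic N h.gn.Nc
  rcases h.kind with hk | hk
  · refine ⟨1, one_pos, Nat.one_le_two_pow, h.Tcl, h.gn.Nn, hab, one_pos, ?_, ?_⟩
    · intro B M hB hN hc
      rw [pow_one]
      exact kind1 h hk B M hB hN hc
    · intro μ hμ
      refine ⟨fun _ => μ, fun _ => hμ, by simp, fun B hB hN hc => kind1 h hk B _ hB hN hc⟩
  · set Q := ∏ q ∈ QS C, q with hQ
    have hprime : ∀ q ∈ QS C, q.Prime := fun q hq => Nat.prime_of_mem_primeFactors (mem_QS.1 hq).1
    have hQpos : 0 < Q := Finset.prod_pos fun q hq => (hprime q hq).pos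
    refine ⟨Q, hQpos, prod_QS_le hR, h.Tcl, h.gn.Nn, hab, hQpos, ?_, ?_⟩
    · intro B M hB hN hc
      rw [h.Nv_mem]
      refine ⟨N.pow_mem hN _, T.pow_mem (val_T h B) _, Nat.coprime_of_dvd ?_⟩
      intro q hq hq1 hq2
      have hq3 : q ∣ orderOf (B.map S.sv).prod := hq1.trans (orderOf_pow_dvd _)
      have hq4 := inv_QS h hR.gen hk hq hN (val_T h B) hq3 hq2
      have hqQ : q ∣ Q := Finset.dvd_prod_of_mem _ hq4
      rw [orderOf_pow] at hq1
      have h1 : q ∣ (orderOf (B.map S.sv).prod).gcd Q := Nat.dvd_gcd hq3 hqQ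
      have h2 : q * q ∣ orderOf (B.map S.sv).prod := by
        have h3 : (orderOf (B.map S.sv).prod) / (orderOf (B.map S.sv).prod).gcd Q * (orderOf (B.map S.sv).prod).gcd Q =
            orderOf (B.map S.sv).prod := Nat.div_mul_cancel (Nat.gcd_dvd_left _ _)
        rw [← h3]
        exact Nat.mul_dvd_mul hq1 h1
      exact hq.one_lt.ne' (Nat.isUnit_iff.1 (h.gn.Nsq q (dvd_N h hN h2)))
    · intro μ hμ
      have hr : ∀ q, q.Prime → ∃ r : ℕ, ∀ m₀ m₁ : ℕ, m₀ + m₁ = 2 * μ →
          m₀ ≡ r [MOD q] → ∀ B : List Lt, (∀ s : Lt, B.count s = (N.subgroupOf T).index * (if s.1 then m₁ else m₀)) →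
          (B.map S.sv).prod ∈ N → (∀ x ∈ T, x * (B.map S.sv).prod = (B.map S.sv).prod * x) →
          ¬ (q ∣ orderOf (B.map S.sv).prod ∧ q ∣ Nat.card V) := fun q hq => kind2 h hk μ _ q hq
      choose! r hr using hr
      obtain ⟨⟨j, hj⟩, hjlt⟩ : ∃ j : {j : ℕ // ∀ q ∈ QS C, j ≡ r q + (q - 1) [MOD q]}, j.1 < Q := by
        have hs : ∀ q ∈ QS C, (id q : ℕ) ≠ 0 := fun q hq => (hprime q hq).pos.ne'
        have pp : Set.Pairwise (QS C : Set ℕ) (Function.onFun Nat.Coprime id) := by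
          intro a ha b hb hab
          exact (Nat.coprime_primes (hprime a ha) (hprime b hb)).2 hab
        exact ⟨Nat.chineseRemainderOfFinset (fun q => r q + (q - 1)) id (QS C) hs pp,
          Nat.chineseRemainderOfFinset_lt_prod _ _ hs pp⟩
      have hj' : ∀ q ∈ QS C, j + 1 ≡ r q [MOD q] := by
        intro q hq
        have h1 := (hj q hq).add_right 1
        have h2 : r q + (q - 1) + 1 = r q + q := by have := (hprime q hq).pos; omega
        rw [h2] at h1
        exact h1.trans (by rw [Nat.ModEq, Nat.add_mod_right])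
      have hjlt' : j < Q := hjlt
      refine ⟨fun s => if s.1 then 2 * μ - (j + 1) else j + 1, fun s => ?_, ?_, fun B hB hN hc => ?_⟩
      · dsimp only
        split_ifs <;> omega
      · rw [Fintype.sum_prod_type, Fintype.sum_bool, Fintype.sum_bool, Fintype.sum_bool]
        simp only [if_true, Bool.false_eq_true, if_false]
        omega
      · rw [h.Nv_mem]
        refine ⟨hN, val_T h B, Nat.coprime_of_dvd ?_⟩
        intro q hq hq1 hq2
        have hq4 := inv_QS h hR.gen hk hq hN (val_T h B) hq1 hq2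
        exact hr q hq (j + 1) (2 * μ - (j + 1)) (by omega) (hj' q hq4) B hB hN hc ⟨hq1, hq2⟩

end

end Pool.Agent.Lib.MP_688fd0_co.SQ7.H90
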