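import Pool.Agent.Lib.MP_688fd0_co.SQ7.H71.Ladder
import Pool.Agent.Lib.MP_688fd0_co.SQ5.H12.Clu

/-!
Row ASM of SQ7 (B1-FULL): the abstract assembly, in permutations.

Tokens `Tok` (bottoms of columns, arrivals of visits), an outside permutation, visits `k < n` in the order of their levels:
an active visit is the exchange of its token `e k` with the token of one of two rails (bit `c k`), a passive visit is a fixed
permutation. If the ladders are connected by triples of direct arcs then the bits can be chosen such that there are at most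
two cycles, through two given visits.
-/

set_option autoImplicit false

namespace Pool.Agent.Lib.MP_688fd0_co.SQ7.H90

open Function Equiv Relation
open Pool.Agent.Lib.MP_688fd0_co.SQ4.H49 Pool.Agent.Lib.MP_688fd0_co.SQ5.H12 Pool.Agent.Lib.MP_688fd0_co.SQ7.H71

/-! ### Products along lists -/

section pl

variable {T : Type*}

/-- The product along a list: the first element acts first. -/
def pl (s : ℕ → Perm T) : List ℕ → Perm T
  | [] => 1
  | k :: ks => pl s ks * s k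

theorem pl_append (s : ℕ → Perm T) (a b : List ℕ) : pl s (a ++ b) = pl s b * pl s a := by
  induction a with
  | nil => simp [pl]
  | cons k a ih => simp only [List.cons_append, pl]; rw [ih, mul_assoc]

theorem pl_congr {s s' : ℕ → Perm T} (ks : List ℕ) (h : ∀ k ∈ ks, s k = s' k) : pl s ks = pl s' ks := by
  induction ks with
  | nil => rfl
  | cons k ks ih =>
    show pl s ks * s k = pl s' ks * s' k
    rw [ih fun i hi => h i (List.mem_cons_of_mem _ hi), h k List.mem_cons_self]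

theorem pl_fix (s : ℕ → Perm T) (ks : List ℕ) (x : T) (h : ∀ k ∈ ks, s k x = x) : pl s ks x = x := by
  induction ks with
  | nil => rfl
  | cons k ks ih =>
    show pl s ks (s k x) = x
    rw [h k List.mem_cons_self, ih fun i hi => h i (List.mem_cons_of_mem _ hi)]

variable {D : Type*} [DecidableEq D] {ex : ℕ → D} {tp : Bool → D}

/-- The product along a list is the inverse of `gs`. -/
theorem pl_gs (s : ℕ → Perm D) (ks : List ℕ) (c : ℕ → Bool)
    (h : ∀ i (hi : i < ks.length), s ks[i] = swap (ex i) (tp (c i))) : pl s ks = (gs ex tp c ks.length)⁻¹ := by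
  have key : ∀ i ≤ ks.length, pl s (ks.take i) = (gs ex tp c i)⁻¹ := by
    intro i
    induction i with
    | zero => intro _; simp [pl, gs]
    | succ i ih =>
      intro hi
      rw [List.take_succ_eq_append_getElem (by omega), pl_append, ih (by omega)]
      show (1 * s ks[i]) * _ = (gs ex tp c i * swap (ex i) (tp (c i)))⁻¹
      rw [one_mul, h i (by omega), mul_inv_rev, swap_inv]
  have := key ks.length le_rfl
  rwa [List.take_length] at this

end pl

/-! ### The system -/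

/-- The data: `Θ` the outside; the visits `k < n` with `act k` are active. -/
structure Sys (Tok ι : Type) where
  Θ : Perm Tok
  n : ℕ
  act : ℕ → Prop
  e : ℕ → Tok
  L : ℕ → ι
  w : ℕ → ℕ
  l : ℕ
  ρ : ι → ℕ → Bool → Tok
  l_pos : 0 < l
  w_lt : ∀ k < n, act k → w k < l
  e_inj : ∀ k < n, act k → ∀ k' < n, act k' → e k = e k' → k = k'
  ρ_inj : ∀ r j b r' j' b', j < l → j' < l → ρ r j b = ρ r' j' b' → r = r' ∧ j = j' ∧ b = b'
  ne : ∀ k < n, act k → ∀ r j b, j < l → e k ≠ ρ r j b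
  lap : ∀ r j b, j < l → Θ (ρ r j b) = ρ r (j + 1) b

namespace Sys

variable {Tok ι : Type} (S : Sys Tok ι)

/-- The tokens of the system. -/
def Av : Set Tok := {x | (∃ k < S.n, S.act k ∧ S.e k = x) ∨ ∃ r j b, j < S.l ∧ S.ρ r j b = x}

/-- The ports of a ladder. -/
abbrev D (r : ι) : Type := Bool ⊕ {k : ℕ // k < S.n ∧ S.act k ∧ S.L k = r}

section K

variable [DecidableEq Tok]

open Classical in
/-- The exchange of the visit `k`. -/
noncomputable def sw (c : ℕ → Bool) (k : ℕ) : Perm Tok :=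
  if S.act k then swap (S.e k) (S.ρ (S.L k) (S.w k) (c k)) else 1

/-- The product of the active visits. -/
noncomputable def K (c : ℕ → Bool) : Perm Tok := pl (S.sw c) (List.range S.n)

/-- The whole permutation. -/
noncomputable def Ψ (c : ℕ → Bool) : Perm Tok := S.Θ * S.K c

end K

open Classical in
/-- The exchange of the visit `k` in the names of the ladder `r`. -/
noncomputable def sr (r : ι) (c : ℕ → Bool) (k : ℕ) : Perm (S.D r) :=
  if h : k < S.n ∧ S.act k ∧ S.L k = r then swap (Sum.inr ⟨k, h⟩) (Sum.inl (c k)) else 1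

open Classical in
/-- The visits of the ladder `r` in the lap `j`, in the order of their levels. -/
noncomputable def kj (r : ι) (j : ℕ) : List ℕ := (List.range S.n).filter fun k => S.act k ∧ S.L k = r ∧ S.w k = j

/-- The visits of the ladder `r` in the order (lap, level). -/
noncomputable def ks (r : ι) : List ℕ := (List.range S.l).flatMap (S.kj r)

variable {S}

theorem mem_kj {r : ι} {j k : ℕ} : k ∈ S.kj r j ↔ k < S.n ∧ S.act k ∧ S.L k = r ∧ S.w k = j := by
  unfold kj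
  rw [List.mem_filter, List.mem_range]
  simp

theorem mem_ks {r : ι} {k : ℕ} : k ∈ S.ks r ↔ k < S.n ∧ S.act k ∧ S.L k = r := by
  unfold ks
  rw [List.mem_flatMap]
  constructor
  · rintro ⟨j, _, h⟩
    obtain ⟨h1, h2, h3, _⟩ := mem_kj.1 h
    exact ⟨h1, h2, h3⟩
  · rintro ⟨h1, h2, h3⟩
    exact ⟨S.w k, List.mem_range.2 (S.w_lt k h1 h2), mem_kj.2 ⟨h1, h2, h3, rfl⟩⟩

theorem nodup_ks (r : ι) : (S.ks r).Nodup := by
  unfold ks
  rw [List.nodup_flatMap]
  refine ⟨fun j _ => (List.nodup_range).filter _, ?_⟩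
  refine List.Pairwise.imp ?_ (List.nodup_range (n := S.l))
  intro i j hij
  rw [Function.onFun, List.disjoint_left]
  intro k h1 h2
  exact hij ((mem_kj.1 h1).2.2.2.symm.trans (mem_kj.1 h2).2.2.2)

/-- Names to tokens in the lap `j`. -/
def nm (r : ι) (j : ℕ) : S.D r → Tok := Sum.elim (S.ρ r j) fun k => S.e k.1

/-- The names which are in use in the lap `j`. -/
def inj (r : ι) (j : ℕ) : S.D r → Prop := Sum.elim (fun _ => True) fun k => S.w k.1 = j

section K

variable [DecidableEq Tok]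

omit [DecidableEq Tok] in
theorem nm_inj {r : ι} {j : ℕ} (hj : j < S.l) {d d' : S.D r} (h : nm (S := S) r j d = nm r j d') : d = d' := by
  rcases d with b | k <;> rcases d' with b' | k'
  · rw [(S.ρ_inj _ _ _ _ _ _ hj hj h).2.2]
  · exact absurd h.symm (S.ne _ k'.2.1 k'.2.2.1 _ _ _ hj)
  · exact absurd h (S.ne _ k.2.1 k.2.2.1 _ _ _ hj)
  · have := S.e_inj _ k.2.1 k.2.2.1 _ k'.2.1 k'.2.2.1 h
    rw [Subtype.ext this]

theorem K_nm (c : ℕ → Bool) {r : ι} {j : ℕ} (hj : j < S.l) (d : S.D r) (hd : inj r j d) :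
    S.K c (nm r j d) = nm r j (pl (S.sr r c) (S.kj r j) d) := by
  classical
  have key : ∀ m ≤ S.n, pl (S.sw c) (List.range m) (nm r j d)
      = nm r j (pl (S.sr r c) ((List.range m).filter fun k => S.act k ∧ S.L k = r ∧ S.w k = j) d) ∧
      inj r j (pl (S.sr r c) ((List.range m).filter fun k => S.act k ∧ S.L k = r ∧ S.w k = j) d) := by
    intro m
    induction m with
    | zero => intro _; exact ⟨rfl, hd⟩
    | succ m ih =>
      intro hm
      obtain ⟨h1, h2⟩ := ih (by omega)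
      rw [List.range_succ, pl_append, List.filter_append, pl_append, Perm.mul_apply, Perm.mul_apply, h1]
      set d' := pl (S.sr r c) ((List.range m).filter fun k => S.act k ∧ S.L k = r ∧ S.w k = j) d with hd'
      show (1 * S.sw c m) (nm r j d') = _ ∧ _
      rw [one_mul]
      by_cases hc : S.act m ∧ S.L m = r ∧ S.w m = j
      · have hmn : m < S.n ∧ S.act m ∧ S.L m = r := ⟨by omega, hc.1, hc.2.1⟩
        have e1 : [m].filter (fun k => S.act k ∧ S.L k = r ∧ S.w k = j) = [m] := by simp [hc]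
        rw [e1]
        show _ = nm r j ((1 * S.sr r c m) d') ∧ inj r j ((1 * S.sr r c m) d')
        rw [one_mul]
        have e2 : S.sr r c m = swap (Sum.inr ⟨m, hmn⟩) (Sum.inl (c m)) := by
          unfold sr; rw [dif_pos hmn]
        have e3 : S.sw c m = swap (nm r j (Sum.inr ⟨m, hmn⟩)) (nm (S := S) r j (Sum.inl (c m))) := by
          unfold sw; rw [if_pos hc.1]
          show swap (S.e m) (S.ρ (S.L m) (S.w m) (c m)) = swap (S.e m) (S.ρ r j (c m))
          rw [hc.2.1, hc.2.2]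
        rw [e2, e3]
        constructor
        · rcases eq_or_ne d' (Sum.inr ⟨m, hmn⟩) with h3 | h3
          · rw [h3, swap_apply_left, swap_apply_left]
          rcases eq_or_ne d' (Sum.inl (c m)) with h4 | h4
          · rw [h4, swap_apply_right, swap_apply_right]
          rw [swap_apply_of_ne_of_ne h3 h4, swap_apply_of_ne_of_ne (fun h => h3 (nm_inj hj h))
            (fun h => h4 (nm_inj hj h))]
        · rcases eq_or_ne d' (Sum.inr ⟨m, hmn⟩) with h3 | h3
          · rw [h3, swap_apply_left]; trivial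
          rcases eq_or_ne d' (Sum.inl (c m)) with h4 | h4
          · rw [h4, swap_apply_right]; exact hc.2.2
          rw [swap_apply_of_ne_of_ne h3 h4]; exact h2
      · have e1 : [m].filter (fun k => S.act k ∧ S.L k = r ∧ S.w k = j) = [] := by simp [hc]
        rw [e1]
        show _ = nm r j ((1 : Perm (S.D r)) d') ∧ inj r j ((1 : Perm (S.D r)) d')
        rw [Perm.one_apply]
        refine ⟨?_, h2⟩
        unfold sw
        by_cases ha : S.act m
        · rw [if_pos ha]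
          apply swap_apply_of_ne_of_ne
          · intro h
            rcases hd2 : d' with b | k
            · rw [hd2] at h
              exact S.ne m (by omega) ha _ _ _ hj h.symm
            · rw [hd2] at h h2
              have h3 := S.e_inj _ k.2.1 k.2.2.1 m (by omega) ha h
              apply hc
              have h4 : S.w k.1 = j := h2
              rw [← h3]
              exact ⟨k.2.2.1, k.2.2.2, h4⟩
          · intro h
            rcases hd2 : d' with b | k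
            · rw [hd2] at h
              obtain ⟨h3, h4, _⟩ := S.ρ_inj _ _ _ _ _ _ hj (S.w_lt m (by omega) ha) h
              exact hc ⟨ha, h3.symm, h4.symm⟩
            · rw [hd2] at h
              exact S.ne _ k.2.1 k.2.2.1 _ _ _ (S.w_lt m (by omega) ha) h
        · rw [if_neg ha]; rfl
  exact (key S.n le_rfl).1

theorem K_off (c : ℕ → Bool) {x : Tok} (hx : x ∉ S.Av) : S.K c x = x := by
  classical
  refine pl_fix _ _ _ fun k hk => ?_
  rw [List.mem_range] at hk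
  unfold sw
  by_cases ha : S.act k
  · rw [if_pos ha]
    apply swap_apply_of_ne_of_ne
    · intro h
      exact hx (Or.inl ⟨k, hk, ha, h.symm⟩)
    · intro h
      exact hx (Or.inr ⟨_, _, _, S.w_lt k hk ha, h.symm⟩)
  · rw [if_neg ha]; rfl

/-! ### The inside of a ladder -/

/-- The token of an in-port. -/
def ti (r : ι) : S.D r → Tok := nm r 0

/-- The token of an out-port. -/
def tx (r : ι) : S.D r → Tok := Sum.elim (fun b => S.Θ (S.ρ r (S.l - 1) b)) fun k => S.Θ (S.e k.1)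

/-- The state of a walk which starts in `x` before the lap `j`. -/
def St (c : ℕ → Bool) (r : ι) (x : Tok) (j : ℕ) : S.D r → Prop :=
  Sum.elim (fun b => (j = 0 ∧ (S.Ψ c).SameCycle x (S.ρ r 0 b)) ∨
    (0 < j ∧ (S.Ψ c).SameCycle x (S.Θ (S.ρ r (j - 1) b))))
    fun k => (S.w k.1 < j ∧ (S.Ψ c).SameCycle x (S.Θ (S.e k.1))) ∨ (j ≤ S.w k.1 ∧ (S.Ψ c).SameCycle x (S.e k.1))

omit [DecidableEq Tok] in
theorem kj_fix (c : ℕ → Bool) {r : ι} {j : ℕ} {k : {k : ℕ // k < S.n ∧ S.act k ∧ S.L k = r}} (h : S.w k.1 ≠ j) :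
    pl (S.sr r c) (S.kj r j) (Sum.inr k) = Sum.inr k := by
  classical
  refine pl_fix _ _ _ fun i hi => ?_
  obtain ⟨h1, h2, h3, h4⟩ := mem_kj.1 hi
  unfold sr
  rw [dif_pos ⟨h1, h2, h3⟩]
  apply swap_apply_of_ne_of_ne
  · intro h5
    have h6 : k.1 = i := congrArg Subtype.val (Sum.inr.inj h5)
    exact h (by rw [h6]; exact h4)
  · intro h5
    cases h5

theorem St_step (c : ℕ → Bool) {r : ι} {x : Tok} {j : ℕ} (hj : j < S.l) {d : S.D r} (h : St c r x j d) :
    St c r x (j + 1) (pl (S.sr r c) (S.kj r j) d) := by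
  by_cases hd : inj r j d
  · -- the token before the exchanges
    have h1 : (S.Ψ c).SameCycle x (nm r j d) := by
      rcases d with b | k
      · rcases h with ⟨h2, h3⟩ | ⟨h2, h3⟩
        · subst h2; exact h3
        · obtain ⟨j, rfl⟩ : ∃ i, j = i + 1 := ⟨j - 1, by omega⟩
          rw [Nat.add_sub_cancel, S.lap r j b (by omega)] at h3
          exact h3
      · have hk : S.w k.1 = j := hd
        rcases h with ⟨h2, _⟩ | ⟨_, h3⟩
        · omega
        · exact h3
    have h2 : (S.Ψ c).SameCycle x (S.Θ (nm r j (pl (S.sr r c) (S.kj r j) d))) := by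
      have h3 : S.Ψ c (nm r j d) = S.Θ (nm r j (pl (S.sr r c) (S.kj r j) d)) := by
        show S.Θ (S.K c (nm r j d)) = _
        rw [K_nm c hj d hd]
      rw [← h3]
      exact Perm.sameCycle_apply_right.2 h1
    have hd' : inj r j (pl (S.sr r c) (S.kj r j) d) := by
      have key : ∀ ks : List ℕ, (∀ i ∈ ks, i ∈ S.kj r j) → inj r j (pl (S.sr r c) ks d) := by
        intro ks
        induction ks using List.reverseRecOn with
        | nil => intro _; exact hd
        | append_singleton ks i ih =>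
          intro hks
          rw [pl_append, Perm.mul_apply]
          have h4 := ih fun i' hi' => hks i' (List.mem_append_left _ hi')
          obtain ⟨h5, h6, h7, h8⟩ := mem_kj.1 (hks i (List.mem_append_right _ (List.mem_singleton_self _)))
          show inj r j ((1 * S.sr r c i) _)
          rw [one_mul]
          generalize pl (S.sr r c) ks d = d' at h4 ⊢
          unfold sr
          rw [dif_pos ⟨h5, h6, h7⟩]
          rcases eq_or_ne d' (Sum.inr ⟨i, h5, h6, h7⟩) with h9 | h9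
          · rw [h9, swap_apply_left]; trivial
          rcases eq_or_ne d' (Sum.inl (c i)) with h10 | h10
          · rw [h10, swap_apply_right]; exact h8
          rw [swap_apply_of_ne_of_ne h9 h10]; exact h4
      exact key _ fun i hi => hi
    generalize pl (S.sr r c) (S.kj r j) d = d' at h2 hd'
    rcases d' with b | k
    · exact Or.inr ⟨Nat.succ_pos j, h2⟩
    · have hk : S.w k.1 = j := hd'
      exact Or.inl ⟨by omega, h2⟩
  · rcases d with b | k
    · exact absurd trivial hd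
    · have hk : S.w k.1 ≠ j := hd
      rw [kj_fix c hk]
      rcases h with ⟨h2, h3⟩ | ⟨h2, h3⟩
      · exact Or.inl ⟨by omega, h3⟩
      · exact Or.inr ⟨by omega, h3⟩

/-- The inside arc of a ladder is realised. -/
theorem inside (c : ℕ → Bool) (r : ι) (d : S.D r) :
    (S.Ψ c).SameCycle (ti r d) (tx r (pl (S.sr r c) (S.ks r) d)) := by
  have key : ∀ j ≤ S.l, St c r (ti r d) j (pl (S.sr r c) ((List.range j).flatMap (S.kj r)) d) := by
    intro j
    induction j with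
    | zero =>
      intro _
      show St c r (ti r d) 0 d
      rcases d with b | k
      · exact Or.inl ⟨rfl, Perm.SameCycle.refl _ _⟩
      · exact Or.inr ⟨Nat.zero_le _, Perm.SameCycle.refl _ _⟩
    | succ j ih =>
      intro hj
      rw [List.range_succ, List.flatMap_append, pl_append, Perm.mul_apply]
      have h1 := St_step c (by omega) (ih (by omega))
      have e1 : [j].flatMap (S.kj r) = S.kj r j := by simp
      rw [e1]
      exact h1
  have h1 := key S.l le_rfl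
  show (S.Ψ c).SameCycle (ti r d) (tx r (pl (S.sr r c) ((List.range S.l).flatMap (S.kj r)) d))
  generalize pl (S.sr r c) ((List.range S.l).flatMap (S.kj r)) d = d' at h1
  rcases d' with b | k
  · rcases h1 with ⟨h2, _⟩ | ⟨_, h3⟩
    · exact absurd h2 S.l_pos.ne'
    · exact h3
  · rcases h1 with ⟨_, h3⟩ | ⟨h2, _⟩
    · exact h3
    · exact absurd (S.w_lt _ k.2.1 k.2.2.1) (by omega)

/-! ### The outside -/

omit [DecidableEq Tok] in
theorem ti_mem {r : ι} (d : S.D r) : ti r d ∈ S.Av := by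
  rcases d with b | k
  · exact Or.inr ⟨r, 0, b, S.l_pos, rfl⟩
  · exact Or.inl ⟨k.1, k.2.1, k.2.2.1, rfl⟩

omit [DecidableEq Tok] in
/-- The tokens of the in-ports are different. -/
theorem ti_inj {p p' : Σ r, S.D r} (h : ti p.1 p.2 = ti p'.1 p'.2) : p = p' := by
  obtain ⟨r, d⟩ := p
  obtain ⟨r', d'⟩ := p'
  rcases d with b | k <;> rcases d' with b' | k'
  · obtain ⟨rfl, _, rfl⟩ := S.ρ_inj _ _ _ _ _ _ S.l_pos S.l_pos h
    rfl
  · exact absurd h.symm (S.ne _ k'.2.1 k'.2.2.1 _ _ _ S.l_pos)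
  · exact absurd h (S.ne _ k.2.1 k.2.2.1 _ _ _ S.l_pos)
  · obtain ⟨k, hk1, hk2, rfl⟩ := k
    obtain ⟨k', hk1', hk2', rfl⟩ := k'
    obtain rfl : k = k' := S.e_inj _ hk1 hk2 _ hk1' hk2' h
    rfl

/-- The token before `Θ` of an out-port. -/
def tz (r : ι) : S.D r → Tok := Sum.elim (fun b => S.ρ r (S.l - 1) b) fun k => S.e k.1

omit [DecidableEq Tok] in
theorem tx_eq (r : ι) (d : S.D r) : tx r d = S.Θ (tz r d) := by rcases d with b | k <;> rfl

omit [DecidableEq Tok] in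
theorem tz_inj {p p' : Σ r, S.D r} (h : tz p.1 p.2 = tz p'.1 p'.2) : p = p' := by
  have hl := S.l_pos
  obtain ⟨r, d⟩ := p
  obtain ⟨r', d'⟩ := p'
  rcases d with b | k <;> rcases d' with b' | k'
  · obtain ⟨rfl, _, rfl⟩ := S.ρ_inj _ _ _ _ _ _ (by omega) (by omega) h
    rfl
  · exact absurd h.symm (S.ne _ k'.2.1 k'.2.2.1 _ _ _ (by omega))
  · exact absurd h (S.ne _ k.2.1 k.2.2.1 _ _ _ (by omega))
  · obtain ⟨k, hk1, hk2, rfl⟩ := k
    obtain ⟨k', hk1', hk2', rfl⟩ := k'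
    obtain rfl : k = k' := S.e_inj _ hk1 hk2 _ hk1' hk2' h
    rfl

omit [DecidableEq Tok] in
/-- An active token is the token of an in-port, or it comes from the lap before. -/
theorem Av_cases {x : Tok} (hx : x ∈ S.Av) : (∃ p : Σ r, S.D r, ti p.1 p.2 = x) ∨
    ∃ r j b, j + 1 < S.l ∧ S.ρ r (j + 1) b = x ∧ S.Θ (S.ρ r j b) = x := by
  rcases hx with ⟨k, h1, h2, rfl⟩ | ⟨r, j, b, hj, rfl⟩
  · exact Or.inl ⟨⟨S.L k, Sum.inr ⟨k, h1, h2, rfl⟩⟩, rfl⟩
  · rcases Nat.eq_zero_or_pos j with rfl | h0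
    · exact Or.inl ⟨⟨r, Sum.inl b⟩, rfl⟩
    · obtain ⟨j, rfl⟩ : ∃ i, j = i + 1 := ⟨j - 1, by omega⟩
      exact Or.inr ⟨r, j, b, hj, rfl, S.lap r j b (by omega)⟩

omit [DecidableEq Tok] in
/-- Behind a token which is not a rail before the last lap, an active token is an in-port. -/
theorem Av_after {z : Tok} (hz : ∀ r j b, j + 1 < S.l → z ≠ S.ρ r j b) (hx : S.Θ z ∈ S.Av) :
    ∃ p : Σ r, S.D r, ti p.1 p.2 = S.Θ z := by
  rcases Av_cases hx with h | ⟨r, j, b, h1, _, h3⟩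
  · exact h
  · exact absurd (S.Θ.injective h3).symm (hz r j b h1)

omit [DecidableEq Tok] in
theorem off_ne {z : Tok} (hz : z ∉ S.Av) (r : ι) (j : ℕ) (b : Bool) (h : j + 1 < S.l) : z ≠ S.ρ r j b := by
  rintro rfl
  exact hz (Or.inr ⟨r, j, b, by omega, rfl⟩)

omit [DecidableEq Tok] in
theorem tz_ne (p : Σ r, S.D r) (r : ι) (j : ℕ) (b : Bool) (h : j + 1 < S.l) : tz p.1 p.2 ≠ S.ρ r j b := by
  obtain ⟨r', d⟩ := p
  have hl := S.l_pos
  intro h1
  rcases d with b' | k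
  · have := (S.ρ_inj _ _ _ _ _ _ (by omega) (by omega) h1).2.1
    omega
  · exact S.ne _ k.2.1 k.2.2.1 _ _ _ (by omega) h1

omit [DecidableEq Tok] in
theorem tz_mem (p : Σ r, S.D r) : tz p.1 p.2 ∈ S.Av := by
  have hl := S.l_pos
  obtain ⟨r', d⟩ := p
  rcases d with b' | k
  · exact Or.inr ⟨r', S.l - 1, b', by omega, rfl⟩
  · exact Or.inl ⟨k.1, k.2.1, k.2.2.1, rfl⟩

/-- `p'` is the first in-port behind the out-port `p`. -/
def Fst (p p' : Σ r, S.D r) : Prop :=
  ∃ i : ℕ, (S.Θ ^ (i + 1)) (tz p.1 p.2) = ti p'.1 p'.2 ∧ ∀ i' < i, (S.Θ ^ (i' + 1)) (tz p.1 p.2) ∉ S.Av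

omit [DecidableEq Tok] in
theorem exists_fst [Finite Tok] (p : Σ r, S.D r) : ∃ p', Fst p p' := by
  classical
  have hex : ∃ i : ℕ, (S.Θ ^ (i + 1)) (tz p.1 p.2) ∈ S.Av := by
    obtain ⟨m, hm⟩ : ∃ m, orderOf S.Θ = m + 1 := ⟨orderOf S.Θ - 1, by have := orderOf_pos S.Θ; omega⟩
    refine ⟨m, ?_⟩
    rw [← hm, pow_orderOf_eq_one]
    exact tz_mem p
  have h1 := Nat.find_spec hex
  have h2 : ∀ i' < Nat.find hex, (S.Θ ^ (i' + 1)) (tz p.1 p.2) ∉ S.Av := fun i' hi' => Nat.find_min hex hi'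
  generalize Nat.find hex = i at h1 h2
  have h3 : ∃ p' : Σ r, S.D r, ti p'.1 p'.2 = (S.Θ ^ (i + 1)) (tz p.1 p.2) := by
    rcases Nat.eq_zero_or_pos i with rfl | h0
    · rw [zero_add, pow_one] at h1 ⊢
      exact Av_after (tz_ne p) h1
    · obtain ⟨i, rfl⟩ : ∃ i', i = i' + 1 := ⟨i - 1, by omega⟩
      rw [pow_succ', Perm.mul_apply] at h1 ⊢
      exact Av_after (off_ne (h2 i (by omega))) h1
  obtain ⟨p', h3⟩ := h3
  exact ⟨p', i, h3.symm, h2⟩

omit [DecidableEq Tok] in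
theorem fst_inj {p q p' : Σ r, S.D r} (h : Fst p p') (h' : Fst q p') : p = q := by
  obtain ⟨i, h1, h2⟩ := h
  obtain ⟨j, h3, h4⟩ := h'
  apply tz_inj
  wlog hij : i ≤ j with H
  · exact (H j h3 h4 i h1 h2 (by omega)).symm
  obtain ⟨d, rfl⟩ : ∃ d, j = i + d := ⟨j - i, by omega⟩
  have h5 : tz p.1 p.2 = (S.Θ ^ d) (tz q.1 q.2) := by
    apply (S.Θ ^ (i + 1)).injective
    rw [h1, ← Perm.mul_apply, ← pow_add, ← h3]
    congr 2
    omega
  rcases Nat.eq_zero_or_pos d with rfl | h0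
  · rw [pow_zero] at h5
    exact h5
  · obtain ⟨d, rfl⟩ : ∃ i', d = i' + 1 := ⟨d - 1, by omega⟩
    have h6 := tz_mem p
    rw [h5] at h6
    exact absurd h6 (h4 d (by omega))

omit [DecidableEq Tok] in
theorem fst_uni {p p' q' : Σ r, S.D r} (h : Fst p p') (h' : Fst p q') : p' = q' := by
  obtain ⟨i, h1, h2⟩ := h
  obtain ⟨j, h3, h4⟩ := h'
  apply ti_inj
  wlog hij : i ≤ j with H
  · exact (H j h3 h4 i h1 h2 (by omega)).symm
  rcases Nat.lt_or_ge i j with h0 | h0
  · have h6 := ti_mem p'.2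
    rw [← h1] at h6
    exact absurd h6 (h4 i h0)
  · obtain rfl : i = j := by omega
    rw [← h1, ← h3]

theorem K_off' (c : ℕ → Bool) {x : Tok} (hx : x ∉ S.Av) : S.Ψ c x = S.Θ x := by
  show S.Θ (S.K c x) = _
  rw [K_off c hx]

/-- The outside arc is realised. -/
theorem outside (c : ℕ → Bool) {p p' : Σ r, S.D r} (h : Fst p p') :
    (S.Ψ c).SameCycle (tx p.1 p.2) (ti p'.1 p'.2) := by
  obtain ⟨i, h1, h2⟩ := h
  rw [tx_eq, ← h1]
  have key : ∀ j ≤ i, (S.Ψ c).SameCycle (S.Θ (tz p.1 p.2)) ((S.Θ ^ (j + 1)) (tz p.1 p.2)) := by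
    intro j
    induction j with
    | zero => intro _; rw [zero_add, pow_one]
    | succ j ih =>
      intro hj
      have h3 := ih (by omega)
      rw [pow_succ' _ (j + 1), Perm.mul_apply, ← K_off' c (h2 j (by omega))]
      exact Perm.sameCycle_apply_right.2 h3
  exact key i le_rfl

/-- Every token is connected with an in-port. -/
theorem to_port [Finite Tok] (c : ℕ → Bool) (hcov : ∀ x, ∃ i : ℕ, (S.Θ ^ i) x ∈ S.Av) (x : Tok) :
    ∃ p : Σ r, S.D r, (S.Ψ c).SameCycle x (ti p.1 p.2) := by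
  classical
  -- active tokens
  have hlap : ∀ j r b, j < S.l → ∃ p : Σ r, S.D r, (S.Ψ c).SameCycle (S.ρ r j b) (ti p.1 p.2) := by
    intro j
    induction j with
    | zero => intro r b _; exact ⟨⟨r, Sum.inl b⟩, Perm.SameCycle.refl _ _⟩
    | succ j ih =>
      intro r b hj
      -- the preimage under the exchanges
      have hsurj : ∃ d : S.D r, inj r j d ∧ S.K c (nm r j d) = S.ρ r j b := by
        have h1 : pl (S.sr r c) (S.kj r j) ((pl (S.sr r c) (S.kj r j))⁻¹ (Sum.inl b)) = Sum.inl b :=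
          Equiv.apply_symm_apply _ _
        have h2 : inj r j ((pl (S.sr r c) (S.kj r j))⁻¹ (Sum.inl b)) := by
          generalize (pl (S.sr r c) (S.kj r j))⁻¹ (Sum.inl b) = d at h1 ⊢
          rcases d with b' | k
          · trivial
          · by_contra hk
            rw [kj_fix c (fun h => hk h)] at h1
            cases h1
        refine ⟨_, h2, ?_⟩
        rw [K_nm c (by omega) _ h2, h1]
        rfl
      obtain ⟨d, hd, h1⟩ := hsurj
      have h2 : S.Ψ c (nm r j d) = S.ρ r (j + 1) b := by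
        show S.Θ (S.K c (nm r j d)) = _
        rw [h1, S.lap r j b (by omega)]
      have h3 : ∃ p : Σ r, S.D r, (S.Ψ c).SameCycle (nm r j d) (ti p.1 p.2) := by
        rcases d with b' | k
        · exact ih r b' (by omega)
        · exact ⟨⟨r, Sum.inr k⟩, Perm.SameCycle.refl _ _⟩
      obtain ⟨p, h3⟩ := h3
      refine ⟨p, ?_⟩
      rw [← h2]
      exact Perm.sameCycle_apply_left.2 h3
  have hAv : ∀ x ∈ S.Av, ∃ p : Σ r, S.D r, (S.Ψ c).SameCycle x (ti p.1 p.2) := by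
    rintro x (⟨k, h1, h2, rfl⟩ | ⟨r, j, b, hj, rfl⟩)
    · exact ⟨⟨S.L k, Sum.inr ⟨k, h1, h2, rfl⟩⟩, Perm.SameCycle.refl _ _⟩
    · exact hlap j r b hj
  have hex := hcov x
  have h1 := Nat.find_spec hex
  have h2 : ∀ i' < Nat.find hex, (S.Θ ^ i') x ∉ S.Av := fun i' hi' => Nat.find_min hex hi'
  generalize Nat.find hex = i at h1 h2
  have key : ∀ j ≤ i, (S.Ψ c).SameCycle x ((S.Θ ^ j) x) := by
    intro j
    induction j with
    | zero => intro _; rw [pow_zero]; exact Perm.SameCycle.refl _ _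
    | succ j ih =>
      intro hj
      have h3 := ih (by omega)
      rw [pow_succ', Perm.mul_apply, ← K_off' c (h2 j (by omega))]
      exact Perm.sameCycle_apply_right.2 h3
  obtain ⟨p, h3⟩ := hAv _ h1
  exact ⟨p, (key i le_rfl).trans h3⟩

/-! ### The outside involution and the regions -/

omit [DecidableEq Tok] in
theorem exists_out [Finite Tok] [Finite ι] : ∃ f : Perm (Σ r, S.D r), ∀ p, Fst p (f p) := by
  classical
  have hfin : Finite (Σ r, S.D r) := by
    have h1 : ∀ r, Finite (S.D r) := fun r => by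
      have : Finite {k : ℕ // k < S.n ∧ S.act k ∧ S.L k = r} :=
        Finite.of_injective (fun k => (⟨k.1, k.2.1⟩ : Fin S.n)) fun k k' h => Subtype.ext (congrArg Fin.val h)
      exact inferInstance
    exact inferInstance
  choose f hf using exists_fst (S := S)
  have hinj : Injective f := fun p q h => fst_inj (hf p) (by rw [h]; exact hf q)
  exact ⟨Equiv.ofBijective f (Finite.injective_iff_bijective.1 hinj), hf⟩

/-- The ports of the regions. -/
abbrev P (S : Sys Tok ι) (r : ι) : Type := S.D r ⊕ S.D r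

/-- The outside involution. -/
def out (f : Perm (Σ r, S.D r)) (x : Σ r, S.P r) : Σ r, S.P r :=
  match x with
  | ⟨r, Sum.inl o⟩ => ⟨(f ⟨r, o⟩).1, Sum.inr (f ⟨r, o⟩).2⟩
  | ⟨r, Sum.inr i⟩ => ⟨(f.symm ⟨r, i⟩).1, Sum.inl (f.symm ⟨r, i⟩).2⟩

omit [DecidableEq Tok] in
theorem out_inv (f : Perm (Σ r, S.D r)) : Inv (out f) := by
  rintro ⟨r, o | i⟩
  · refine ⟨?_, fun h => ?_⟩
    · show (⟨(f.symm (f ⟨r, o⟩)).1, Sum.inl (f.symm (f ⟨r, o⟩)).2⟩ : Σ r, S.P r) = ⟨r, Sum.inl o⟩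
      rw [f.symm_apply_apply]
    · have h1 : (⟨(f ⟨r, o⟩).1, Sum.inr (f ⟨r, o⟩).2⟩ : Σ r, S.P r) = ⟨r, Sum.inl o⟩ := h
      generalize f ⟨r, o⟩ = y at h1
      obtain ⟨y1, y2⟩ := y
      obtain ⟨h2, h3⟩ := Sigma.mk.inj_iff.1 h1
      have h2 : y1 = r := h2
      subst h2
      exact absurd (eq_of_heq h3) (by simp)
  · refine ⟨?_, fun h => ?_⟩
    · show (⟨(f (f.symm ⟨r, i⟩)).1, Sum.inr (f (f.symm ⟨r, i⟩)).2⟩ : Σ r, S.P r) = ⟨r, Sum.inr i⟩
      rw [f.apply_symm_apply]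
    · have h1 : (⟨(f.symm ⟨r, i⟩).1, Sum.inl (f.symm ⟨r, i⟩).2⟩ : Σ r, S.P r) = ⟨r, Sum.inr i⟩ := h
      generalize f.symm ⟨r, i⟩ = y at h1
      obtain ⟨y1, y2⟩ := y
      obtain ⟨h2, h3⟩ := Sigma.mk.inj_iff.1 h1
      have h2 : y1 = r := h2
      subst h2
      exact absurd (eq_of_heq h3) (by simp)

/-- The insides of a ladder. -/
def KI (r : ι) : Set (S.P r → S.P r) := {k | ∃ c : ℕ → Bool, k = kk (pl (S.sr r c) (S.ks r))⁻¹}

omit [DecidableEq Tok] in
theorem sr_congr {r : ι} {c c' : ℕ → Bool} {k : ℕ} (h : c k = c' k) : S.sr r c k = S.sr r c' k := by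
  unfold sr
  rw [h]

omit [DecidableEq Tok] in
theorem KI_sep [Finite Tok] (r : ι) (hr : ∃ k < S.n, S.act k ∧ S.L k = r) : Sep (KI (S := S) r) := by
  classical
  have hfin : Finite {k : ℕ // k < S.n ∧ S.act k ∧ S.L k = r} :=
    Finite.of_injective (fun k => (⟨k.1, k.2.1⟩ : Fin S.n)) fun k k' h => Subtype.ext (congrArg Fin.val h)
  obtain ⟨k₀, h1, h2, h3⟩ := hr
  let k₁ : {k : ℕ // k < S.n ∧ S.act k ∧ S.L k = r} := ⟨k₀, h1, h2, h3⟩
  let ex : ℕ → S.D r := fun i => if h : i < (S.ks r).length then Sum.inr ⟨(S.ks r)[i], mem_ks.1 (List.getElem_mem h)⟩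
    else Sum.inr k₁
  have hex : ∀ i (h : i < (S.ks r).length), ex i = Sum.inr ⟨(S.ks r)[i], mem_ks.1 (List.getElem_mem h)⟩ :=
    fun i h => dif_pos h
  refine (ladder_sep (m := (S.ks r).length) (ex := ex) (tp := Sum.inl) (by simp) ?_ ?_ ?_).mono ?_
  · intro i σ h
    simp only [ex] at h
    split at h <;> cases h
  · intro i hi j hj h
    rw [hex i hi, hex j hj] at h
    have h4 : (S.ks r)[i] = (S.ks r)[j] := congrArg Subtype.val (Sum.inr.inj h)
    exact (List.Nodup.getElem_inj_iff (nodup_ks r)).1 h4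
  · rintro (b | k)
    · exact Or.inl ⟨b, rfl⟩
    · obtain ⟨i, hi, h4⟩ := List.getElem_of_mem (mem_ks.2 k.2)
      exact Or.inr ⟨i, hi, by rw [hex i hi]; exact congrArg Sum.inr (Subtype.ext h4.symm)⟩
  · rintro _ ⟨c, rfl⟩
    refine ⟨fun k => c ((S.ks r).idxOf k), ?_⟩
    rw [pl_gs (ex := ex) (tp := Sum.inl) _ _ c, inv_inv]
    intro i hi
    rw [hex i hi]
    unfold sr
    rw [dif_pos (mem_ks.1 (List.getElem_mem hi))]
    have h4 : (S.ks r).idxOf (S.ks r)[i] = i := (nodup_ks r).idxOf_getElem i hi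
    simp only [h4]

/-- The token of a port. -/
def tk (x : Σ r, S.P r) : Tok := Sum.elim (tx x.1) (ti x.1) x.2

/-- A direct arc from the exit of the visit `k` to the arrival of the visit `k'`. -/
def Arc (S : Sys Tok ι) (k k' : ℕ) : Prop :=
  ∃ i : ℕ, (S.Θ ^ (i + 1)) (S.e k) = S.e k' ∧ ∀ i' < i, (S.Θ ^ (i' + 1)) (S.e k) ∉ S.Av

/-- Three direct arcs from the ladder `a` to the ladder `b`, not to `k₁` or `k₂`. -/
def Three (S : Sys Tok ι) (k₁ k₂ : ℕ) (a b : ι) : Prop :=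
  ∃ p p' : Fin 3 → ℕ, Injective p ∧ ∀ i, p i < S.n ∧ S.act (p i) ∧ S.L (p i) = a ∧ p' i < S.n ∧ S.act (p' i) ∧
    S.L (p' i) = b ∧ S.Arc (p i) (p' i) ∧ p' i ≠ k₁ ∧ p' i ≠ k₂

/-- The port of the exit side of the visit `k`. -/
def po (k : ℕ) (h : k < S.n) (h' : S.act k) : Σ r, S.P r := ⟨S.L k, Sum.inl (Sum.inr ⟨k, h, h', rfl⟩)⟩

/-- The port of the arrival side of the visit `k`. -/
def pi' (k : ℕ) (h : k < S.n) (h' : S.act k) : Σ r, S.P r := ⟨S.L k, Sum.inr (Sum.inr ⟨k, h, h', rfl⟩)⟩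

omit [DecidableEq Tok] in
theorem po_inj {k k' : ℕ} {h h' h1 h1'} (he : S.po k h h' = S.po k' h1 h1') : k = k' :=
  S.e_inj _ h h' _ h1 h1' (congrArg (fun y : Σ r, S.P r => (tz (S := S) y.1 (Sum.elim id id y.2))) he)

omit [DecidableEq Tok] in
theorem pi_inj {k k' : ℕ} {h h' h1 h1'} (he : S.pi' k h h' = S.pi' k' h1 h1') : k = k' :=
  S.e_inj _ h h' _ h1 h1' (congrArg (fun y : Σ r, S.P r => (tz (S := S) y.1 (Sum.elim id id y.2))) he)

omit [DecidableEq Tok] in
/-- The side of a port. -/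
theorem side (x : Σ r, S.P r) (f : Perm (Σ r, S.D r)) : (out f x).2.isLeft = !x.2.isLeft := by
  obtain ⟨r, o | i⟩ := x <;> rfl

omit [DecidableEq Tok] in
theorem out_po {f : Perm (Σ r, S.D r)} (hf : ∀ p, Fst p (f p)) {k k' : ℕ} (h : k < S.n) (h' : S.act k)
    (h1 : k' < S.n) (h1' : S.act k') (ha : S.Arc k k') : out f (S.po k h h') = S.pi' k' h1 h1' := by
  have h5 : f ⟨S.L k, Sum.inr ⟨k, h, h', rfl⟩⟩ = ⟨S.L k', Sum.inr ⟨k', h1, h1', rfl⟩⟩ := fst_uni (hf _) ha
  show (⟨(f ⟨S.L k, Sum.inr ⟨k, h, h', rfl⟩⟩).1, Sum.inr (f ⟨S.L k, Sum.inr ⟨k, h, h', rfl⟩⟩).2⟩ : Σ r, S.P r) = _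
  rw [h5]
  rfl

omit [DecidableEq Tok] in
/-- Triples of arcs. -/
theorem adj3 {f : Perm (Σ r, S.D r)} (hf : ∀ p, Fst p (f p)) {X : Set (Σ r, S.P r)} (hXo : ∀ x, x ∈ X → out f x ∈ X)
    {a b : ι} {p p' : Fin 3 → ℕ} (hp : Injective p)
    (h : ∀ i, ∃ (h1 : p i < S.n) (h2 : S.act (p i)) (_ : S.L (p i) = a) (h4 : p' i < S.n) (h5 : S.act (p' i))
      (_ : S.L (p' i) = b), S.Arc (p i) (p' i) ∧ (S.po (p i) h1 h2 ∉ X ∨ S.pi' (p' i) h4 h5 ∉ X)) :
    Adj3 (out f) (fun r => ({r} : Set ι)) X a b ∧ Adj3 (out f) (fun r => ({r} : Set ι)) X b a := by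
  have ho := out_inv f
  choose h1 h2 h3 h4 h5 h6 h7 h8 using h
  let x : Fin 3 → Σ r, S.P r := fun i => S.po (p i) (h1 i) (h2 i)
  have hx : ∀ i, out f (x i) = S.pi' (p' i) (h4 i) (h5 i) := fun i => out_po hf _ _ _ _ (h7 i)
  have hinj : Injective x := fun i j hij => hp (po_inj hij)
  have hnX' : ∀ i, x i ∉ X := by
    intro i hi
    rcases h8 i with h9 | h9
    · exact h9 hi
    · exact h9 (by rw [← hx i]; exact hXo _ hi)
  have hnX : ∀ i, out f (x i) ∉ X := by
    intro i hi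
    have := hXo _ hi
    rw [(ho _).1] at this
    exact hnX' i this
  refine ⟨⟨x, hinj, fun i => ⟨?_, ?_, hnX' i, hnX i⟩⟩, ⟨fun i => out f (x i), ?_, fun i => ⟨?_, ?_, hnX i, ?_⟩⟩⟩
  · exact h3 i
  · show (out f (x i)).1 ∈ ({b} : Set ι)
    rw [hx i]
    exact h6 i
  · intro i j hij
    apply hinj
    have := congrArg (out f) hij
    simp only [(ho _).1] at this
    exact this
  · show (out f (x i)).1 ∈ ({b} : Set ι)
    rw [hx i]
    exact h6 i
  · show (out f (out f (x i))).1 ∈ ({a} : Set ι)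
    rw [(ho _).1]
    exact h3 i
  · rw [(ho _).1]
    exact hnX' i

/-- The ends of two arcs. -/
def X4 (f : Perm (Σ r, S.D r)) (a₁ a₂ : Σ r, S.P r) : Set (Σ r, S.P r) :=
  {x | x = a₁ ∨ x = out f a₁ ∨ x = a₂ ∨ x = out f a₂}

omit [DecidableEq Tok] in
theorem X4_out (f : Perm (Σ r, S.D r)) (a₁ a₂ : Σ r, S.P r) : ∀ x, x ∈ X4 f a₁ a₂ → out f x ∈ X4 f a₁ a₂ := by
  have ho := out_inv f
  rintro x (rfl | rfl | rfl | rfl)
  · exact Or.inr (Or.inl rfl)
  · exact Or.inl (ho _).1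
  · exact Or.inr (Or.inr (Or.inr rfl))
  · exact Or.inr (Or.inr (Or.inl (ho _).1))

/-- The core: two arcs `a₁`, `a₂` of the outside. -/
theorem core [Finite Tok] [Finite ι] (hcov : ∀ x, ∃ i : ℕ, (S.Θ ^ i) x ∈ S.Av)
    (hne : ∀ r, ∃ k < S.n, S.act k ∧ S.L k = r) {f : Perm (Σ r, S.D r)} (hf : ∀ p, Fst p (f p))
    (a₁ a₂ : Σ r, S.P r) (ha12 : a₂ ≠ a₁) (ha12' : a₂ ≠ out f a₁) (r₀ : ι)
    (hconn : ∀ r, ReflTransGen (fun a b => Adj3 (out f) (fun r => ({r} : Set ι)) (X4 f a₁ a₂) a b) r₀ r) :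
    ∃ c : ℕ → Bool, ∀ x, (S.Ψ c).SameCycle x (tk a₁) ∨ (S.Ψ c).SameCycle x (tk a₂) := by
  classical
  have hfin : ∀ r, Finite (S.D r) := fun r => by
    have : Finite {k : ℕ // k < S.n ∧ S.act k ∧ S.L k = r} :=
      Finite.of_injective (fun k => (⟨k.1, k.2.1⟩ : Fin S.n)) fun k k' h => Subtype.ext (congrArg Fin.val h)
    exact inferInstance
  have ho := out_inv f
  -- one ladder
  have hone : ∀ r, Clu (out f) (KI (S := S)) {r} ∅ := by
    intro r
    refine Clu.one (KI_sep r (hne r)) ?_ ![Sum.inl (Sum.inl true), Sum.inl (Sum.inl false), Sum.inr (Sum.inl true)] ?_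
      ⟨_, fun _ => true, rfl⟩
    · rintro k ⟨c, rfl⟩
      exact kk_inv _
    · intro i j h
      fin_cases i <;> fin_cases j <;> first | rfl | (exfalso; simp at h)
  obtain ⟨J, hJ, hJX⟩ := Clu.iUnion ho hone (by
      intro a b hab
      rw [Function.onFun, Set.disjoint_singleton]
      exact hab) (fun _ => Set.disjoint_left.2 fun _ h => absurd h (Set.notMem_empty _)) r₀ hconn
  have hU : (⋃ i, ({i} : Set ι)) = Set.univ := by
    ext x; simp
  rw [hU] at hJ
  obtain ⟨c', hc', hcon⟩ := hJ.fin_univ ho a₁ a₂ (fun h => Set.disjoint_left.1 hJX h (Or.inl rfl))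
    (fun h => Set.disjoint_left.1 hJX h (Or.inr (Or.inr (Or.inl rfl)))) ha12 ha12'
  choose cr hcr using hc'
  let c : ℕ → Bool := fun k => cr (S.L k) k
  have hc : ∀ r, c' r = kk (pl (S.sr r c) (S.ks r))⁻¹ := by
    intro r
    rw [hcr r]
    congr 2
    refine pl_congr _ fun k hk => ?_
    obtain ⟨h3, h4, h5⟩ := mem_ks.1 hk
    apply sr_congr
    show cr r k = cr (S.L k) k
    rw [h5]
  refine ⟨c, fun x => ?_⟩
  -- soundness
  have hR : ∀ x y : Σ r, S.P r, Con (out f) (gl c') x y → (S.Ψ c).SameCycle (tk x) (tk y) := by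
    intro x y hxy
    refine Con.le (ρ := fun x y => (S.Ψ c).SameCycle (tk x) (tk y)) ⟨fun _ => Perm.SameCycle.refl _ _,
      fun h => h.symm, fun h h' => h.trans h'⟩ ?_ ?_ hxy
    · rintro ⟨r, o | i⟩
      · exact outside c (hf ⟨r, o⟩)
      · have := outside c (hf (f.symm ⟨r, i⟩))
        rw [f.apply_symm_apply] at this
        exact this.symm
    · rintro ⟨r, o | i⟩
      · show (S.Ψ c).SameCycle (tx r o) (tk ⟨r, c' r (Sum.inl o)⟩)
        rw [hc r]
        have := inside c r ((pl (S.sr r c) (S.ks r))⁻¹ o)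
        have e1 : pl (S.sr r c) (S.ks r) ((pl (S.sr r c) (S.ks r))⁻¹ o) = o := Equiv.apply_symm_apply _ _
        rw [e1] at this
        exact this.symm
      · show (S.Ψ c).SameCycle (ti r i) (tk ⟨r, c' r (Sum.inr i)⟩)
        rw [hc r]
        exact inside c r i
  obtain ⟨p, hp⟩ := to_port c hcov x
  rcases hcon ⟨p.1, Sum.inr p.2⟩ with h | h
  · exact Or.inl (hp.trans (hR _ _ h))
  · exact Or.inr (hp.trans (hR _ _ h))

/-- **ASM**, the two arcs end at the arrivals `e k₁`, `e k₂`. -/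
theorem main [Finite Tok] [Finite ι] (hcov : ∀ x, ∃ i : ℕ, (S.Θ ^ i) x ∈ S.Av)
    (hne : ∀ r, ∃ k < S.n, S.act k ∧ S.L k = r) {k₁ k₂ : ℕ} (h1 : k₁ < S.n) (h1' : S.act k₁) (h2 : k₂ < S.n)
    (h2' : S.act k₂) (h12 : k₁ ≠ k₂) (r₀ : ι)
    (hconn : ∀ r, ReflTransGen (fun a b => S.Three k₁ k₂ a b ∨ S.Three k₁ k₂ b a) r₀ r) :
    ∃ c : ℕ → Bool, ∀ x, (S.Ψ c).SameCycle x (S.e k₁) ∨ (S.Ψ c).SameCycle x (S.e k₂) := by
  obtain ⟨f, hf⟩ := exists_out (S := S)
  have ho := out_inv f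
  have hadj : ∀ a b, S.Three k₁ k₂ a b →
      Adj3 (out f) (fun r => ({r} : Set ι)) (X4 f (S.pi' k₁ h1 h1') (S.pi' k₂ h2 h2')) a b ∧
      Adj3 (out f) (fun r => ({r} : Set ι)) (X4 f (S.pi' k₁ h1 h1') (S.pi' k₂ h2 h2')) b a := by
    rintro a b ⟨p, p', hp, h⟩
    refine adj3 (p' := p') hf (X4_out f _ _) hp fun i => ?_
    obtain ⟨g1, g2, g3, g4, g5, g6, g7, g8, g9⟩ := h i
    refine ⟨g1, g2, g3, g4, g5, g6, g7, Or.inr ?_⟩
    rintro (h6 | h6 | h6 | h6)
    · exact g8 (pi_inj h6)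
    · have := congrArg (fun y : Σ r, S.P r => y.2.isLeft) h6
      simp only [side] at this
      cases this
    · exact g9 (pi_inj h6)
    · have := congrArg (fun y : Σ r, S.P r => y.2.isLeft) h6
      simp only [side] at this
      cases this
  refine core hcov hne hf (S.pi' k₁ h1 h1') (S.pi' k₂ h2 h2') (fun h => h12 (pi_inj h).symm) (fun h => ?_) r₀
    fun r => ReflTransGen.mono (fun a b h => ?_) _ _ (hconn r)
  · have := congrArg (fun y : Σ r, S.P r => y.2.isLeft) h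
    simp only [side] at this
    cases this
  · rcases h with h | h
    · exact (hadj a b h).1
    · exact (hadj b a h).2

/-- Three direct arcs from the ladder `a` to the ladder `b`, not from `k₁` or `k₂`. -/
def ThreeO (S : Sys Tok ι) (k₁ k₂ : ℕ) (a b : ι) : Prop :=
  ∃ p p' : Fin 3 → ℕ, Injective p ∧ ∀ i, p i < S.n ∧ S.act (p i) ∧ S.L (p i) = a ∧ p' i < S.n ∧ S.act (p' i) ∧
    S.L (p' i) = b ∧ S.Arc (p i) (p' i) ∧ p i ≠ k₁ ∧ p i ≠ k₂

/-- **ASM**, the two arcs begin at the exits of `k₁`, `k₂`. -/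
theorem mainO [Finite Tok] [Finite ι] (hcov : ∀ x, ∃ i : ℕ, (S.Θ ^ i) x ∈ S.Av)
    (hne : ∀ r, ∃ k < S.n, S.act k ∧ S.L k = r) {k₁ k₂ : ℕ} (h1 : k₁ < S.n) (h1' : S.act k₁) (h2 : k₂ < S.n)
    (h2' : S.act k₂) (h12 : k₁ ≠ k₂) (r₀ : ι)
    (hconn : ∀ r, ReflTransGen (fun a b => S.ThreeO k₁ k₂ a b ∨ S.ThreeO k₁ k₂ b a) r₀ r) :
    ∃ c : ℕ → Bool, ∀ x, (S.Ψ c).SameCycle x (S.Θ (S.e k₁)) ∨ (S.Ψ c).SameCycle x (S.Θ (S.e k₂)) := by
  obtain ⟨f, hf⟩ := exists_out (S := S)
  have ho := out_inv f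
  have hadj : ∀ a b, S.ThreeO k₁ k₂ a b →
      Adj3 (out f) (fun r => ({r} : Set ι)) (X4 f (S.po k₁ h1 h1') (S.po k₂ h2 h2')) a b ∧
      Adj3 (out f) (fun r => ({r} : Set ι)) (X4 f (S.po k₁ h1 h1') (S.po k₂ h2 h2')) b a := by
    rintro a b ⟨p, p', hp, h⟩
    refine adj3 (p' := p') hf (X4_out f _ _) hp fun i => ?_
    obtain ⟨g1, g2, g3, g4, g5, g6, g7, g8, g9⟩ := h i
    refine ⟨g1, g2, g3, g4, g5, g6, g7, Or.inl ?_⟩
    rintro (h6 | h6 | h6 | h6)
    · exact g8 (po_inj h6)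
    · have := congrArg (fun y : Σ r, S.P r => y.2.isLeft) h6
      simp only [side] at this
      cases this
    · exact g9 (po_inj h6)
    · have := congrArg (fun y : Σ r, S.P r => y.2.isLeft) h6
      simp only [side] at this
      cases this
  refine core hcov hne hf (S.po k₁ h1 h1') (S.po k₂ h2 h2') (fun h => h12 (po_inj h).symm) (fun h => ?_) r₀
    fun r => ReflTransGen.mono (fun a b h => ?_) _ _ (hconn r)
  · have := congrArg (fun y : Σ r, S.P r => y.2.isLeft) h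
    simp only [side] at this
    cases this
  · rcases h with h | h
    · exact (hadj a b h).1
    · exact (hadj b a h).2

end K

end Sys

/-! ### Passive visits -/

/-- The data with passive visits: an active visit `k` exchanges `e k` and `y k (c k)`; a passive visit is the fixed permutation
`π k`. -/
structure PD (Tok ι : Type) where
  O : Perm Tok
  n : ℕ
  act : ℕ → Prop
  π : ℕ → Perm Tok
  e : ℕ → Tok
  y : ℕ → Bool → Tok
  L : ℕ → ι
  w : ℕ → ℕ
  l : ℕ
  ρ : ι → ℕ → Bool → Tok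

namespace PD

variable {Tok ι : Type} (S : PD Tok ι)

open Classical in
/-- The passive part. -/
noncomputable def pe (k : ℕ) : Perm Tok := if S.act k then 1 else S.π k

/-- The passive visits before `k`. -/
noncomputable def PP (k : ℕ) : Perm Tok := pl S.pe (List.range k)

/-- The outside. -/
noncomputable def Θ : Perm Tok := S.O * S.PP S.n

/-- The tokens of the ladders. -/
def Av : Set Tok := {x | (∃ k < S.n, S.act k ∧ S.e k = x) ∨ ∃ r j b, j < S.l ∧ S.ρ r j b = x}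

variable [DecidableEq Tok]

open Classical in
/-- The permutation of the visit `k`. -/
noncomputable def E (c : ℕ → Bool) (k : ℕ) : Perm Tok := if S.act k then swap (S.e k) (S.y k (c k)) else S.π k

/-- All visits. -/
noncomputable def K (c : ℕ → Bool) : Perm Tok := pl (S.E c) (List.range S.n)

/-- The whole permutation. -/
noncomputable def Ψ (c : ℕ → Bool) : Perm Tok := S.O * S.K c

omit [DecidableEq Tok] in
theorem PP_zero : S.PP 0 = 1 := rfl

omit [DecidableEq Tok] in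
theorem PP_succ (k : ℕ) : S.PP (k + 1) = S.pe k * S.PP k := by
  unfold PP
  rw [List.range_succ, pl_append]
  show (1 * S.pe k) * _ = _
  rw [one_mul]

/-- The hypotheses (H1), (H2). -/
structure Ok (S : PD Tok ι) : Prop where
  l_pos : 0 < S.l
  w_lt : ∀ k < S.n, S.act k → S.w k < S.l
  e_inj : ∀ k < S.n, S.act k → ∀ k' < S.n, S.act k' → S.e k = S.e k' → k = k'
  ρ_inj : ∀ r j b r' j' b', j < S.l → j' < S.l → S.ρ r j b = S.ρ r' j' b' → r = r' ∧ j = j' ∧ b = b'
  ne : ∀ k < S.n, S.act k → ∀ r j b, j < S.l → S.e k ≠ S.ρ r j b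
  fe : ∀ k < S.n, S.act k → S.PP k (S.e k) = S.e k
  fy : ∀ k < S.n, S.act k → ∀ b, S.PP k (S.ρ (S.L k) (S.w k) b) = S.y k b
  lap : ∀ r j b, j < S.l → S.O (S.PP S.n (S.ρ r j b)) = S.ρ r (j + 1) b

variable {S}

/-- The system without passive visits. -/
noncomputable def sys (h : Ok S) : Sys Tok ι where
  Θ := S.Θ
  n := S.n
  act := S.act
  e := S.e
  L := S.L
  w := S.w
  l := S.l
  ρ := S.ρ
  l_pos := h.l_pos
  w_lt := h.w_lt
  e_inj := h.e_inj
  ρ_inj := h.ρ_inj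
  ne := h.ne
  lap := h.lap

theorem K_eq (h : Ok S) (c : ℕ → Bool) : S.K c = S.PP S.n * (sys h).K c := by
  classical
  have key : ∀ k ≤ S.n, pl (S.E c) (List.range k) = S.PP k * pl ((sys h).sw c) (List.range k) := by
    intro k
    induction k with
    | zero => intro _; rw [PP_zero]; rfl
    | succ k ih =>
      intro hk
      rw [List.range_succ, pl_append, pl_append, ih (by omega), PP_succ]
      show (1 * S.E c k) * _ = S.pe k * S.PP k * ((1 * (sys h).sw c k) * _)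
      rw [one_mul, one_mul]
      unfold E pe Sys.sw
      by_cases ha : S.act k
      · have ha' : (sys h).act k := ha
        rw [if_pos ha, if_pos ha, if_pos ha', one_mul]
        have e1 : swap (S.e k) (S.y k (c k)) = S.PP k * swap (S.e k) (S.ρ (S.L k) (S.w k) (c k)) * (S.PP k)⁻¹ := by
          rw [← swap_apply_apply, h.fe k (by omega) ha, h.fy k (by omega) ha]
        rw [e1]
        show _ = S.PP k * (swap (S.e k) (S.ρ (S.L k) (S.w k) (c k)) * _)
        group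
      · have ha' : ¬ (sys h).act k := ha
        rw [if_neg ha, if_neg ha, if_neg ha', one_mul, mul_assoc]
  exact key S.n le_rfl

theorem Ψ_eq (h : Ok S) (c : ℕ → Bool) : S.Ψ c = (sys h).Ψ c := by
  show S.O * S.K c = S.Θ * (sys h).K c
  rw [K_eq h c, ← mul_assoc]
  rfl

/-- A direct arc from the exit of the visit `k` to the arrival of the visit `k'`. -/
def Arc (S : PD Tok ι) (k k' : ℕ) : Prop :=
  ∃ i : ℕ, (S.Θ ^ (i + 1)) (S.e k) = S.e k' ∧ ∀ i' < i, (S.Θ ^ (i' + 1)) (S.e k) ∉ S.Av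

/-- Three direct arcs from the ladder `a` to the ladder `b`, not to `k₁` or `k₂`. -/
def Three (S : PD Tok ι) (k₁ k₂ : ℕ) (a b : ι) : Prop :=
  ∃ p p' : Fin 3 → ℕ, Injective p ∧ ∀ i, p i < S.n ∧ S.act (p i) ∧ S.L (p i) = a ∧ p' i < S.n ∧ S.act (p' i) ∧
    S.L (p' i) = b ∧ S.Arc (p i) (p' i) ∧ p' i ≠ k₁ ∧ p' i ≠ k₂

/-- **ASM with passive visits.** (H3) = `hcov`, (H4) = `hconn`. -/
theorem asm [Finite Tok] [Finite ι] (h : Ok S) (hcov : ∀ x, ∃ i : ℕ, (S.Θ ^ i) x ∈ S.Av)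
    (hne : ∀ r, ∃ k < S.n, S.act k ∧ S.L k = r) {k₁ k₂ : ℕ} (h1 : k₁ < S.n) (h1' : S.act k₁) (h2 : k₂ < S.n)
    (h2' : S.act k₂) (h12 : k₁ ≠ k₂) (r₀ : ι)
    (hconn : ∀ r, ReflTransGen (fun a b => S.Three k₁ k₂ a b ∨ S.Three k₁ k₂ b a) r₀ r) :
    ∃ c : ℕ → Bool, ∀ x, (S.Ψ c).SameCycle x (S.e k₁) ∨ (S.Ψ c).SameCycle x (S.e k₂) := by
  obtain ⟨c, hc⟩ := (sys h).main hcov hne h1 h1' h2 h2' h12 r₀ hconn
  exact ⟨c, fun x => by rw [Ψ_eq h c]; exact hc x⟩

/-- Three direct arcs from the ladder `a` to the ladder `b`, not from `k₁` or `k₂`. -/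
def ThreeO (S : PD Tok ι) (k₁ k₂ : ℕ) (a b : ι) : Prop :=
  ∃ p p' : Fin 3 → ℕ, Injective p ∧ ∀ i, p i < S.n ∧ S.act (p i) ∧ S.L (p i) = a ∧ p' i < S.n ∧ S.act (p' i) ∧
    S.L (p' i) = b ∧ S.Arc (p i) (p' i) ∧ p i ≠ k₁ ∧ p i ≠ k₂

/-- **ASM with passive visits**, the two arcs begin at the `Θ`-side of `k₁`, `k₂`. -/
theorem asmO [Finite Tok] [Finite ι] (h : Ok S) (hcov : ∀ x, ∃ i : ℕ, (S.Θ ^ i) x ∈ S.Av)
    (hne : ∀ r, ∃ k < S.n, S.act k ∧ S.L k = r) {k₁ k₂ : ℕ} (h1 : k₁ < S.n) (h1' : S.act k₁) (h2 : k₂ < S.n)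
    (h2' : S.act k₂) (h12 : k₁ ≠ k₂) (r₀ : ι)
    (hconn : ∀ r, ReflTransGen (fun a b => S.ThreeO k₁ k₂ a b ∨ S.ThreeO k₁ k₂ b a) r₀ r) :
    ∃ c : ℕ → Bool, ∀ x, (S.Ψ c).SameCycle x (S.Θ (S.e k₁)) ∨ (S.Ψ c).SameCycle x (S.Θ (S.e k₂)) := by
  obtain ⟨c, hc⟩ := (sys h).mainO hcov hne h1 h1' h2 h2' h12 r₀ hconn
  exact ⟨c, fun x => by rw [Ψ_eq h c]; exact hc x⟩

end PD

end Pool.Agent.Lib.MP_688fd0_co.SQ7.H90
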