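import Pool.Agent.Lib.MP_688fd0_co.SQ7.IfaceG
import Pool.Agent.Lib.MP_688fd0_co.SQ7.H41.Lam

/-!
Type C2, B1-FULL, row MUL: the values of closed words with multiplicities lie in the level part `Nv` (input `WDat` of the rows
RUN, WRD, GEN).

`q` prime, `q ∣ |V|`, `q ∣ ord (value)`: an element `μ` of order `q`, central in `T`; `n : T → X`, `|X| = q`, kernel = elements
of order prime to `q`; `n (g y g⁻¹) = n y` or `(n y)⁻¹` for the letters `g`.
-/

set_option autoImplicit false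

namespace Pool.Agent.Lib.MP_688fd0_co.SQ7.H90

open Subgroup Pool.Agent.Lib.MP_688fd0_co.OSF Pool.Agent.Lib.MP_688fd0_co.SQ2 Pool.Agent.Lib.MP_688fd0_co.SQ2.H41

/-! ### A homomorphism onto a group of order `q` -/

/-- A central element of order `q`, `q ^ 2` does not divide the order of the group: the homomorphism. -/
theorem exists_hom {H : Type} [Group H] [Finite H] {μ : H} {q : ℕ} (hq : q.Prime) (hμ : orderOf μ = q)
    (hc : ∀ g, μ * g = g * μ) (hsq : ¬ q ^ 2 ∣ Nat.card H) :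
    ∃ (X : Type) (_ : CommGroup X) (n : H →* X), Nat.card X = q ∧ ∀ x : H, n x = 1 ↔ (orderOf x).Coprime q := by
  obtain ⟨K, hK1, hK2, hK3⟩ := H41.exists_compl hq hμ hc hsq
  have hKn : K.Normal := by
    refine ⟨fun x hx g => ?_⟩
    have h4 : g * x * g⁻¹ = g * x * g⁻¹ * x⁻¹ * x := by rw [inv_mul_cancel_right]
    rw [h4]
    exact K.mul_mem (hK3 g x) hx
  have hcomm : ∀ x y : H ⧸ K, x * y = y * x := by
    intro x y
    obtain ⟨x, rfl⟩ := QuotientGroup.mk'_surjective K x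
    obtain ⟨y, rfl⟩ := QuotientGroup.mk'_surjective K y
    have h4 := (QuotientGroup.eq_one_iff (N := K) (x * y * x⁻¹ * y⁻¹)).2 (hK3 x y)
    have h5 : QuotientGroup.mk' K x * QuotientGroup.mk' K y * (QuotientGroup.mk' K x)⁻¹ *
        (QuotientGroup.mk' K y)⁻¹ = 1 := h4
    exact mul_inv_eq_iff_eq_mul.1 (mul_inv_eq_one.1 h5)
  have hk : ∀ x : H, QuotientGroup.mk' K x = 1 ↔ (orderOf x).Coprime q := by
    intro x
    rw [← MonoidHom.mem_ker, QuotientGroup.ker_mk']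
    refine ⟨fun hx => ?_, hK2 x⟩
    exact Nat.Coprime.coprime_dvd_left (K.orderOf_dvd_natCard hx) hK1
  refine ⟨H ⧸ K, { (inferInstance : Group (H ⧸ K)) with mul_comm := hcomm }, QuotientGroup.mk' K, ?_, hk⟩
  have hpow : ∀ x : H ⧸ K, x ^ q = 1 := by
    intro x
    obtain ⟨x, rfl⟩ := QuotientGroup.mk'_surjective K x
    rw [← map_pow, hk]
    rw [orderOf_pow]
    by_cases h1 : q ∣ orderOf x
    · rw [Nat.gcd_eq_right h1]
      rw [Nat.coprime_comm, Nat.Prime.coprime_iff_not_dvd hq]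
      intro h2
      apply hsq
      refine (?_ : q ^ 2 ∣ orderOf x).trans (orderOf_dvd_natCard x)
      obtain ⟨m, hm⟩ := h1
      rw [hm, Nat.mul_div_cancel_left _ hq.pos] at h2
      rw [hm, pow_two]
      exact Nat.mul_dvd_mul_left _ h2
    · have h2 : (orderOf x).gcd q = 1 := (Nat.coprime_comm.1 ((Nat.Prime.coprime_iff_not_dvd hq).2 h1))
      rw [h2, Nat.div_one]
      exact h2
  have hF : Fact q.Prime := ⟨hq⟩
  have hp : IsPGroup q (H ⧸ K) := fun x => ⟨1, by rw [pow_one]; exact hpow x⟩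
  obtain ⟨j, hj⟩ := IsPGroup.iff_card.1 hp
  have hdvd : Nat.card (H ⧸ K) ∣ Nat.card H := by
    rw [← Subgroup.index_eq_card]; exact K.index_dvd_card
  have hμ1 : QuotientGroup.mk' K μ ≠ 1 := by
    intro h1
    rw [hk, hμ] at h1
    exact hq.one_lt.ne' ((Nat.coprime_self q).1 h1)
  have hj2 : j < 2 := by
    by_contra h1
    push Not at h1
    apply hsq
    refine (pow_dvd_pow q h1).trans ?_
    rw [← hj]
    exact hdvd
  have hj0 : j ≠ 0 := by
    rintro rfl
    rw [pow_zero] at hj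
    have h2 := (Nat.card_eq_one_iff_unique.1 hj).1
    exact hμ1 (Subsingleton.elim _ _)
  have hj1 : j = 1 := by omega
  rw [hj, hj1, pow_one]

/-- Conjugation. -/
theorem hom_conj {G : Type} [Group G] [Finite G] {T : Subgroup G} {X : Type} [CommGroup X] {n : T →* X} {q : ℕ}
    (hq : q.Prime) (hX : Nat.card X = q) (hn : ∀ x : T, n x = 1 ↔ (orderOf x).Coprime q) (μ : T) (hμ : n μ ≠ 1)
    {g : G} (hg : ∀ y ∈ T, g * y * g⁻¹ ∈ T) {e : ℤ} (he : g * (μ : G) * g⁻¹ = (μ : G) ^ e) (y : T) :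
    n ⟨g * y * g⁻¹, hg y y.2⟩ = n y ^ e := by
  have hF : Fact q.Prime := ⟨hq⟩
  obtain ⟨j, hj⟩ := Subgroup.mem_zpowers_iff.1 (mem_zpowers_of_prime_card hX hμ (g' := n y))
  obtain ⟨k, hk⟩ : ∃ k : T, k = y * (μ ^ j)⁻¹ := ⟨_, rfl⟩
  have hk1 : n k = 1 := by rw [hk, map_mul, map_inv, map_zpow, hj, mul_inv_cancel]
  have hy : y = k * μ ^ j := by rw [hk, inv_mul_cancel_right]
  have hgk : n ⟨g * k * g⁻¹, hg k k.2⟩ = 1 := by
    rw [hn, ← Subgroup.orderOf_coe]
    have h1 := (hn k).1 hk1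
    rw [← Subgroup.orderOf_coe] at h1
    have h2 : orderOf (g * (k : G) * g⁻¹) = orderOf (k : G) := by
      rw [← MulAut.conj_apply]
      exact orderOf_injective (MulAut.conj g).toMonoidHom (MulAut.conj g).injective (k : G)
    show (orderOf (g * (k : G) * g⁻¹)).Coprime q
    rw [h2]
    exact h1
  have h3 : (⟨g * y * g⁻¹, hg y y.2⟩ : T) = ⟨g * k * g⁻¹, hg k k.2⟩ * (μ ^ e) ^ j := by
    apply Subtype.ext
    rw [hy]
    push_cast
    rw [← he, conj_zpow]
    group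
  rw [h3, map_mul, hgk, one_mul, map_zpow, map_zpow, ← hj, ← zpow_mul, ← zpow_mul, mul_comm e j]

end Pool.Agent.Lib.MP_688fd0_co.SQ7.H90
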