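import Pool.Agent.Lib.MP_688fd0_co.SQ7.H90.Mul
import Pool.Agent.Lib.MP_688fd0_co.SQ7.H31.Wrd
import Pool.Agent.Lib.MP_688fd0_co.SQ7.H71.Lvd

/-!
Type C2, B1-FULL, row MUL, part 2: the structure `WDat` from the group data.
-/

set_option autoImplicit false

namespace Pool.Agent.Lib.MP_688fd0_co.SQ7.H90

open Subgroup Pool.Agent.Lib.MP_688fd0_co.OSF Pool.Agent.Lib.MP_688fd0_co.SQ2 Pool.Agent.Lib.MP_688fd0_co.SQ2.H41
open Pool.Agent.Lib.MP_688fd0_co.SQ7.H31 (qT coe_qT beq_eq WDat)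

variable {G : Type} [Group G]

/-- The tower group. -/
def ltr (S : Lets G) : Subgroup G := Subgroup.closure (Set.range S.al ∪ Set.range S.be)

theorem al_ltr (S : Lets G) (i : Bool) : S.al i ∈ ltr S := subset_closure (Or.inl ⟨i, rfl⟩)

theorem be_ltr (S : Lets G) (i : Bool) : S.be i ∈ ltr S := subset_closure (Or.inr ⟨i, rfl⟩)

/-- The situation for one prime. -/
structure Sit (T : Subgroup G) (q : ℕ) (μ : T) {X : Type} [CommGroup X] (n : T →* X) : Prop where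
  hq : q.Prime
  q2 : q ≠ 2
  ord : orderOf (μ : G) = q
  cen : ∀ x ∈ T, x * (μ : G) = μ * x
  card : Nat.card X = q
  hn : ∀ x : T, n x = 1 ↔ (orderOf x).Coprime q

section

variable [Finite G] {N C : Subgroup G} {eps : G →* ℤˣ} {k P : ℕ} {A : Set G} {S : Lets G} {D : Set G} {T V Nv : Subgroup G}
    {L δ : ℕ} {lev : G → ZMod L} (h : Dat N C eps k P A S D T V Nv L δ lev)

include h

theorem odd_q {q : ℕ} (hq : q.Prime) (hqN : q ∣ Nat.card N) : 4 < q ∧ ¬ q ^ 2 ∣ Nat.card G ∧ ¬ q ∣ k := by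
  have hqk : ¬ q ∣ k := fun h1 => hq.one_lt.ne' (Nat.eq_one_of_dvd_coprimes h.gn.cop hqN h1)
  have hk0 : 0 < k := by
    rw [← h.gn.idx]; exact Nat.pos_of_ne_zero N.index_ne_zero_of_finite
  refine ⟨?_, ?_, hqk⟩
  · have h1 := (h.gn.big q (Nat.mem_primeFactors.2 ⟨hq, hqN, Nat.card_pos.ne'⟩)).1
    omega
  · intro h1
    rw [← N.card_mul_index, h.gn.idx] at h1
    have h2 : (q ^ 2).Coprime k := Nat.Coprime.pow_left 2 ((Nat.Prime.coprime_iff_not_dvd hq).2 hqk)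
    have h3 : q ^ 2 ∣ Nat.card N := h2.dvd_of_dvd_mul_right h1
    rw [pow_two] at h3
    exact hq.one_lt.ne' (Nat.isUnit_iff.1 (h.gn.Nsq q h3))

/-- The element of order `q` and the homomorphism. -/
theorem exists_sit {q : ℕ} (hq : q.Prime) {x : G} (hxN : x ∈ N) (hxT : x ∈ T) (hc : ∀ y ∈ T, y * x = x * y)
    (hqx : q ∣ orderOf x) : ∃ (μ : T) (X : Type) (_ : CommGroup X) (n : T →* X), Sit T q μ n ∧ (μ : G) ∈ N := by
  have hqN : q ∣ Nat.card N := by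
    have h1 := orderOf_dvd_natCard (⟨x, hxN⟩ : N)
    rw [← Subgroup.orderOf_coe] at h1
    exact hqx.trans h1
  obtain ⟨h4, hsq, -⟩ := odd_q h hq hqN
  set μ := x ^ (orderOf x / q) with hμdef
  have hμ : orderOf μ = q := orderOf_pow_orderOf_div (orderOf_pos x).ne' hqx
  have hμT : μ ∈ T := T.pow_mem hxT _
  have hcen : ∀ y ∈ T, y * μ = μ * y := by
    intro y hy
    have h1 : Commute y x := hc y hy
    exact h1.pow_right _
  have hsq' : ¬ q ^ 2 ∣ Nat.card T := fun h1 => hsq (h1.trans T.card_subgroup_dvd_card)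
  obtain ⟨X, hX, n, h1, h2⟩ := exists_hom (μ := (⟨μ, hμT⟩ : T)) hq (by rw [← Subgroup.orderOf_coe]; exact hμ)
    (fun g => Subtype.ext (hcen g g.2).symm) hsq'
  exact ⟨⟨μ, hμT⟩, X, hX, n, ⟨hq, by omega, hμ, hcen, h1, h2⟩, N.pow_mem hxN _⟩

/-- An element of order `q` lies in `N`. -/
theorem mem_N {q : ℕ} (hq : q.Prime) (hqN : q ∣ Nat.card N) {y : G} (hy : orderOf y = q) : y ∈ N := by
  obtain ⟨-, -, hqk⟩ := odd_q h hq hqN
  have := h.gn.Nn
  have h1 : y ^ k ∈ N := by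
    have := N.pow_index_mem y
    rwa [h.gn.idx] at this
  have h2 : (k : ℕ).Coprime q := (Nat.coprime_comm.1 ((Nat.Prime.coprime_iff_not_dvd hq).2 hqk))
  have h3 : y = (y ^ k) ^ (Int.gcdA k q) := by
    have h4 := Int.gcd_eq_gcd_ab k q
    have h5 : ((k : ℤ).gcd q : ℤ) = 1 := by
      have : Int.gcd (k : ℤ) (q : ℤ) = 1 := by simpa [Int.gcd] using h2
      exact_mod_cast this
    rw [h5] at h4
    have h6 : y ^ ((k : ℤ) * Int.gcdA k q + q * Int.gcdB k q) = y := by rw [← h4, zpow_one]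
    rw [zpow_add, zpow_mul y (q : ℤ), zpow_natCast y q, ← hy, pow_orderOf_eq_one, one_zpow, mul_one, zpow_mul,
      zpow_natCast, hy] at h6
    exact h6.symm
  rw [h3]
  exact N.zpow_mem h1 _

/-- The element of order `q` lies in `V`. -/
theorem mem_V {q : ℕ} (hq : q.Prime) (hqV : q ∣ Nat.card V) {μ : G} (hμ : orderOf μ = q) (hμN : μ ∈ N) : μ ∈ V := by
  have hF : Fact q.Prime := ⟨hq⟩
  have hqN : q ∣ Nat.card N := by
    have h1 := orderOf_dvd_natCard (⟨μ, hμN⟩ : N)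
    rw [← Subgroup.orderOf_coe] at h1
    rw [← hμ]
    exact h1
  obtain ⟨c, hc'⟩ := exists_prime_orderOf_dvd_card' (G := V) q hqV
  have hco : orderOf (c : G) = q := by rw [Subgroup.orderOf_coe, hc']
  have hcN := mem_N h hq hqN hco
  have h1 : μ ∈ Subgroup.zpowers (c : G) := by
    refine mem_zpowers_of_pow N h.gn.Nc hcN hμN ?_
    rw [hco, ← hμ, pow_orderOf_eq_one]
  exact (Subgroup.zpowers_le.2 c.2) h1

theorem not_all {q : ℕ} {μ : T} {X : Type} [CommGroup X] {n : T →* X} (s : Sit T q μ n) (hμN : (μ : G) ∈ N)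
    (hqV : q ∣ Nat.card V) : ¬ ∀ x y, n (qT S T h.sv_mem x) = n (qT S T h.sv_mem y) := by
  intro hall
  have h1 := h.Vmin (n.ker.map T.subtype) (by
    rintro x hx _ ⟨y, hy, rfl⟩
    refine ⟨⟨x, hx⟩ * y * ⟨x, hx⟩⁻¹, ?_, rfl⟩
    rw [SetLike.mem_coe, MonoidHom.mem_ker] at hy ⊢
    rw [map_mul, map_mul, hy, mul_one, map_inv, mul_inv_cancel]) (by
    intro x y
    refine ⟨qT S T h.sv_mem x * (qT S T h.sv_mem y)⁻¹, ?_, rfl⟩
    rw [SetLike.mem_coe, MonoidHom.mem_ker, map_mul, map_inv, hall x y, mul_inv_cancel])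
  obtain ⟨y, hy, hyμ⟩ := h1 (mem_V h s.hq hqV s.ord hμN)
  rw [SetLike.mem_coe, MonoidHom.mem_ker, s.hn] at hy
  have h2 : y = μ := Subtype.ext hyμ
  rw [h2, ← Subgroup.orderOf_coe, s.ord] at hy
  exact s.hq.one_lt.ne' ((Nat.coprime_self q).1 hy)

theorem ltr_T {x : G} (hx : x ∈ ltr S) (he : eps x = 1) : x ∈ T := (h.hT x).2 ⟨hx, he⟩

theorem T_ltr {x : G} (hx : x ∈ T) : x ∈ ltr S ∧ eps x = 1 := (h.hT x).1 hx

theorem conj_T {g : G} (hg : g ∈ ltr S) : ∀ y ∈ T, g * y * g⁻¹ ∈ T := by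
  intro y hy
  obtain ⟨h1, h2⟩ := T_ltr h hy
  refine ltr_T h ((ltr S).mul_mem ((ltr S).mul_mem hg h1) ((ltr S).inv_mem hg)) ?_
  rw [map_mul, map_mul, h2, mul_one, map_inv, mul_inv_cancel]

theorem odd_mul {g g' : G} (hg : g ∈ ltr S) (he : eps g = -1) (hg' : g' ∈ ltr S) (he' : eps g' = -1) : g * g' ∈ T := by
  refine ltr_T h ((ltr S).mul_mem hg hg') ?_
  rw [map_mul, he, he']; decide

omit h [Finite G] in
theorem eps_inv {g : G} (he : eps g = -1) : eps g⁻¹ = -1 := by rw [map_inv, he]; decide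

/-- All odd elements of the tower group act on `μ` by the same sign. -/
theorem sign {q : ℕ} {μ : T} {X : Type} [CommGroup X] {n : T →* X} (s : Sit T q μ n) (hμN : (μ : G) ∈ N) :
    ∃ e : ℤ, (e = 1 ∨ e = -1) ∧ ∀ g ∈ ltr S, eps g = -1 → g * (μ : G) * g⁻¹ = (μ : G) ^ e := by
  obtain ⟨b, hb⟩ : ∃ b, b = S.be false := ⟨_, rfl⟩
  have hbl : b ∈ ltr S := by rw [hb]; exact be_ltr S false
  have hbe : eps b = -1 := by rw [hb]; exact h.neg _ (h.be false)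
  have hbb : b * b ∈ T := odd_mul h hbl hbe hbl hbe
  obtain ⟨i, hi⟩ := conj_pow h.gn.Nn h.gn.Nc b⁻¹ hμN
  rw [inv_inv] at hi
  have hall : ∀ g ∈ ltr S, eps g = -1 → g * (μ : G) * g⁻¹ = b * μ * b⁻¹ := by
    intro g hg he
    have h1 : g * b⁻¹ ∈ T := odd_mul h hg he ((ltr S).inv_mem hbl) (eps_inv hbe)
    have h2 : (g * b⁻¹) * (b * (μ : G) * b⁻¹) * (g * b⁻¹)⁻¹ = b * μ * b⁻¹ := by
      rw [hi]
      have h3 : Commute (g * b⁻¹) (μ : G) := s.cen _ h1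
      rw [(h3.zpow_right i).eq, mul_inv_cancel_right]
    rw [← h2]
    group
  have hii : (μ : G) ^ (i * i) = μ := by
    have h1 : b * (b * (μ : G) * b⁻¹) * b⁻¹ = μ := by
      have h4 : b * (b * (μ : G) * b⁻¹) * b⁻¹ = (b * b * μ) * (b * b)⁻¹ := by group
      rw [h4, s.cen _ hbb, mul_inv_cancel_right]
    rw [hi, ← conj_zpow, hi, ← zpow_mul] at h1
    exact h1
  have hdvd : (q : ℤ) ∣ (i - 1) * (i + 1) := by
    have h1 : (μ : G) ^ (i * i - 1) = 1 := by rw [zpow_sub_one, hii, mul_inv_cancel]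
    have h2 := orderOf_dvd_iff_zpow_eq_one.2 h1
    rw [s.ord] at h2
    have h3 : (i - 1) * (i + 1) = i * i - 1 := by ring
    rw [h3]
    exact h2
  rcases (Nat.prime_iff_prime_int.1 s.hq).dvd_or_dvd hdvd with h1 | h1
  · refine ⟨1, Or.inl rfl, fun g hg he => ?_⟩
    rw [hall g hg he, hi]
    have h3 : (μ : G) ^ (i - 1) = 1 := by
      apply orderOf_dvd_iff_zpow_eq_one.1
      rw [s.ord]
      exact h1
    have h4 : (μ : G) ^ i = (μ : G) ^ (i - 1) * μ := by rw [← zpow_add_one]; congr 1; ring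
    rw [h4, h3, one_mul, zpow_one]
  · refine ⟨-1, Or.inr rfl, fun g hg he => ?_⟩
    rw [hall g hg he, hi]
    have h3 : (μ : G) ^ (i + 1) = 1 := by
      apply orderOf_dvd_iff_zpow_eq_one.1
      rw [s.ord]
      exact h1
    have h4 : (μ : G) ^ i = (μ : G) ^ (i + 1) * (μ : G) ^ (-1 : ℤ) := by rw [← zpow_add]; congr 1; ring
    rw [h4, h3, one_mul]

theorem n_conj {q : ℕ} {μ : T} {X : Type} [CommGroup X] {n : T →* X} (s : Sit T q μ n) {e : ℤ}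
    (he : ∀ g ∈ ltr S, eps g = -1 → g * (μ : G) * g⁻¹ = (μ : G) ^ e) {g : G} (hg : g ∈ ltr S) (hge : eps g = -1) (y : T) :
    n ⟨g * y * g⁻¹, conj_T h hg y y.2⟩ = n y ^ e := by
  refine hom_conj s.hq s.card s.hn μ ?_ (conj_T h hg) (he g hg hge) y
  rw [Ne, s.hn, ← Subgroup.orderOf_coe, s.ord]
  exact fun h1 => s.hq.one_lt.ne' ((Nat.coprime_self q).1 h1)

omit h [Finite G] in
theorem sq_one {q : ℕ} {μ : T} {X : Type} [CommGroup X] {n : T →* X} (s : Sit T q μ n) {x : X} (hx : x = x⁻¹) : x = 1 := by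
  have h1 : x ^ 2 = 1 := by
    rw [pow_two]
    nth_rewrite 2 [hx]
    exact mul_inv_cancel x
  have h2 : x ^ q = 1 := by
    have := pow_card_eq_one' (x := x)
    rwa [s.card] at this
  have h3 : orderOf x ∣ Nat.gcd 2 q := Nat.dvd_gcd (orderOf_dvd_of_pow_eq_one h1) (orderOf_dvd_of_pow_eq_one h2)
  have h4 : Nat.gcd 2 q = 1 := (Nat.coprime_primes Nat.prime_two s.hq).2 s.q2.symm
  rw [h4, Nat.dvd_one, orderOf_eq_one_iff] at h3
  exact h3

/-- Relation of the letters: `n (c b) = n (c⁻¹ b⁻¹) ^ (-e)`. -/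
theorem rel1 {q : ℕ} {μ : T} {X : Type} [CommGroup X] {n : T →* X} (s : Sit T q μ n) {e : ℤ}
    (he : ∀ g ∈ ltr S, eps g = -1 → g * (μ : G) * g⁻¹ = (μ : G) ^ e) {c b : G} (hc : c ∈ ltr S) (hce : eps c = -1)
    (h1 : c * b ∈ T) (h2 : c⁻¹ * b⁻¹ ∈ T) : n ⟨c * b, h1⟩ = (n ⟨c⁻¹ * b⁻¹, h2⟩)⁻¹ ^ e := by
  rw [← map_inv, ← n_conj h s he hc hce]
  congr 1
  apply Subtype.ext
  push_cast
  group

end

end Pool.Agent.Lib.MP_688fd0_co.SQ7.H90
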